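import Pool.Agent.N504.RS.Unc
import Pool.Agent.R782.Bal.Class

/-!
# Vanishing for all the full subcomplexes of a coloured complex with subdivided monochromatic edges
-/

set_option autoImplicit false
set_option linter.unusedSectionVars false

namespace Pool.Agent.N504.RS

open Finset Pool.Agent.W555.KS Pool.Agent.W907.SG Pool.Agent.W907.SM Pool.Agent.Y131.KS Pool.Agent.R782.Bal
open Pool.Agent.TH652.Above (lv_set lv_sub lv_univ lv_add lv_cone)

/-- the vertices outside of `A` are the midpoints of the subdivided monochromatic edges -/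
structure Mid {V : Type} (G : SimpleGraph V) (κ : V → ℕ) (A : Set V) : Prop where
  col : ∀ u ∈ A, ∀ v ∈ A, G.Adj u v → κ u ≠ κ v
  mid : ∀ v, v ∉ A → ∃ s ∈ A, ∃ t ∈ A, s ≠ t ∧ ¬ G.Adj s t ∧ G.Adj v s ∧ G.Adj v t ∧ κ s = κ v ∧ κ t = κ v ∧
    ∀ u, G.Adj v u → u ≠ s → u ≠ t → G.Adj u s ∧ G.Adj u t ∧ κ u ≠ κ v

theorem her (m : ℕ) : ∀ {V : Type} [Finite V] (G : SimpleGraph V) (κ : V → ℕ) (A : Set V) (F : Finset ℕ),
    F.card = m → (∀ v, κ v ∈ F) → Mid G κ A → Obs G (2 * m) → ∀ (C : Set V) (i : ℕ), m ≤ i →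
    LV (G.induce C) i := by
  classical
  induction m with
  | zero => intro V _ G κ A F _ _ _ hO; exact absurd rfl (obs_pos hO)
  | succ m ih =>
    intro V _ G κ A F hF hκ hM hO C i hi
    -- the links
    have key : ∀ v, v ∉ A → ∀ (C : Set V) (j : ℕ), m ≤ j → LV (G.induce (C ∩ G.neighborSet v)) j := by
      intro v hv C j hj
      obtain ⟨s, hs, t, ht, hst, hnst, hvs, hvt, hκs, hκt, hL⟩ := hM.mid v hv
      obtain ⟨L, hLd⟩ : ∃ L : Set V, L = {u | G.Adj v u ∧ u ≠ s ∧ u ≠ t} := ⟨_, rfl⟩
      have hmem : ∀ u, u ∈ L ↔ G.Adj v u ∧ u ≠ s ∧ u ≠ t := fun u => by rw [hLd]; rfl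
      have hLadj : ∀ u ∈ L, G.Adj u s ∧ G.Adj u t ∧ κ u ≠ κ v := by
        intro u hu
        obtain ⟨h1, h2, h3⟩ := (hmem u).1 hu
        exact hL u h1 h2 h3
      have hM' : Mid (G.induce L) (fun x => κ x.1) {x | x.1 ∈ A} := by
        refine ⟨fun u hu w hw huw => hM.col u.1 hu w.1 hw huw, fun x hx => ?_⟩
        obtain ⟨s', hs', t', ht', hst', hnst', hxs, hxt, hκs', hκt', hL'⟩ := hM.mid x.1 hx
        have hxL := (hmem x.1).1 x.2
        have h1 := hL' v hxL.1.symm (fun e => hv (e ▸ hs')) (fun e => hv (e ▸ ht'))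
        have h2 := (hLadj x.1 x.2).2.2
        have m1 : s' ∈ L := (hmem s').2 ⟨h1.1, fun e => h2 (by rw [← hκs', e, hκs]),
          fun e => h2 (by rw [← hκs', e, hκt])⟩
        have m2 : t' ∈ L := (hmem t').2 ⟨h1.2.1, fun e => h2 (by rw [← hκt', e, hκs]),
          fun e => h2 (by rw [← hκt', e, hκt])⟩
        refine ⟨⟨s', m1⟩, hs', ⟨t', m2⟩, ht', fun e => hst' (congrArg Subtype.val e), hnst', hxs, hxt, hκs', hκt', ?_⟩
        intro u hu hus hut
        exact hL' u.1 hu (fun e => hus (Subtype.ext e)) fun e => hut (Subtype.ext e)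
      have hO1 : Obs (G.induce (insert s L)) (2 * m + 1) := by
        have hO' : Obs G (2 * m + 1 + 1) := hO
        refine obs_link hO' (Function.Embedding.subtype _) v (fun a b h => h) ?_
        rintro ⟨a, ha⟩
        rcases ha with rfl | ha
        · exact hvs
        · exact ((hmem a).1 ha).1
      have hO2 : Obs (G.induce L) (2 * m) := by
        refine obs_link hO1 ⟨fun x => ⟨x.1, Or.inr x.2⟩, fun a b h => Subtype.ext (by
          have := congrArg Subtype.val h
          exact this)⟩ ⟨s, Or.inl rfl⟩ (fun a b h => h) ?_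
        intro a
        exact (hLadj a.1 a.2).1.symm
      have h3 := ih (G.induce L) (fun x => κ x.1) {x | x.1 ∈ A} (F.erase (κ v))
        (by rw [card_erase_of_mem (hκ v), hF]; rfl)
        (fun x => mem_erase.2 ⟨(hLadj x.1 x.2).2.2, hκ _⟩) hM' hO2 {x | x.1 ∈ C} j hj
      rw [lv_sub] at h3
      have h4 : LV (G.induce (C ∩ L)) j := by
        refine lv_set ?_ h3
        ext u
        constructor
        · rintro ⟨h5, h6⟩
          exact ⟨⟨u, h6⟩, h5, rfl⟩
        · rintro ⟨⟨x, hx⟩, h5, rfl⟩
          exact ⟨h5, hx⟩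
      have hN : ∀ u, u ∈ C ∩ G.neighborSet v ↔ u ∈ C ∩ L ∨ (u = s ∧ s ∈ C) ∨ (u = t ∧ t ∈ C) := by
        intro u
        constructor
        · rintro ⟨h5, h6⟩
          by_cases e1 : u = s
          · subst e1; exact Or.inr (Or.inl ⟨rfl, h5⟩)
          by_cases e2 : u = t
          · subst e2; exact Or.inr (Or.inr ⟨rfl, h5⟩)
          exact Or.inl ⟨h5, (hmem u).2 ⟨h6, e1, e2⟩⟩
        · rintro (⟨h5, h6⟩ | ⟨rfl, h5⟩ | ⟨rfl, h5⟩)
          · exact ⟨h5, ((hmem u).1 h6).1⟩
          · exact ⟨h5, hvs⟩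
          · exact ⟨h5, hvt⟩
      by_cases hsC : s ∈ C
      · by_cases htC : t ∈ C
        · -- a suspension
          refine lsusp ↥(C ∩ G.neighborSet v) _ ⟨s, hsC, hvs⟩ ⟨t, htC, hvt⟩ j
            (fun e => hst (congrArg Subtype.val e)) hnst ?_
          rintro ⟨u, hu⟩ h5 h6
          have h7 := hL u hu.2 (fun e => h5 (Subtype.ext e)) fun e => h6 (Subtype.ext e)
          exact ⟨h7.1, h7.2.1⟩
        · refine lv_set ?_ (lv_cone G (C ∩ L) s (fun h => ((hmem s).1 h.2).2.1 rfl)
            (fun a ha => (hLadj a ha.2).1.symm) j h4)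
          ext u
          rw [hN]
          constructor
          · rintro (h | ⟨h, -⟩ | ⟨-, h⟩)
            · exact Or.inr h
            · exact Or.inl h
            · exact absurd h htC
          · rintro (h | h)
            · exact Or.inr (Or.inl ⟨h, hsC⟩)
            · exact Or.inl h
      · by_cases htC : t ∈ C
        · refine lv_set ?_ (lv_cone G (C ∩ L) t (fun h => ((hmem t).1 h.2).2.2 rfl)
            (fun a ha => (hLadj a ha.2).2.1.symm) j h4)
          ext u
          rw [hN]
          constructor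
          · rintro (h | ⟨-, h⟩ | ⟨h, -⟩)
            · exact Or.inr h
            · exact absurd h hsC
            · exact Or.inl h
          · rintro (h | h)
            · exact Or.inr (Or.inr ⟨h, htC⟩)
            · exact Or.inl h
        · refine lv_set ?_ h4
          ext u
          rw [hN]
          constructor
          · rintro (h | ⟨-, h⟩ | ⟨-, h⟩)
            · exact h
            · exact absurd h hsC
            · exact absurd h htC
          · exact fun h => Or.inl h
    -- adding the midpoints one after the other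
    obtain ⟨k, hk⟩ : ∃ k, (C \ A).ncard = k := ⟨_, rfl⟩
    induction k generalizing C with
    | zero =>
      have hCA : C ⊆ A := by
        rw [Set.ncard_eq_zero (Set.toFinite _)] at hk
        exact Set.sdiff_eq_empty.1 hk
      intro _ _
      refine l2_top (m := m + 1) (col := fun c => F.equivFinOfCardEq hF ⟨κ c.1, hκ _⟩) ?_ ?_ i hi
      · intro u w huw h
        have h1 := congrArg Subtype.val ((F.equivFinOfCardEq hF).injective h)
        exact hM.col u.1 (hCA u.2) w.1 (hCA w.2) huw h1
      · exact obs_mono hO (Function.Embedding.subtype _) fun a b h => h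
    | succ k ihk =>
      obtain ⟨v, hv⟩ : (C \ A).Nonempty := by
        rw [Set.nonempty_iff_ne_empty]
        intro h
        rw [h, Set.ncard_empty] at hk
        omega
      refine lv_add G C v hv.1 i (ihk _ ?_) fun j hj => key v hv.2 C j (by omega)
      have h1 : (C \ {v}) \ A = (C \ A) \ {v} := by
        ext u
        simp only [Set.mem_sdiff, Set.mem_singleton_iff]
        tauto
      rw [h1, Set.ncard_sdiff_singleton_of_mem hv, hk]
      rfl

end Pool.Agent.N504.RS
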