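import Pool.Agent.N504.RS.Two

/-!
# Homology spheres over the field with two elements: the two definitions
-/

set_option autoImplicit false

noncomputable section

namespace Pool.Agent.N504.RS.Two

open Finset Module Pool.Agent.W907.SG
open Pool.Agent.R782.Bal (tr2 mem_KK_tr beta_tr bd_tr Emb)
open Pool.Agent.Y131.KS (Sp bdr AcyclicAt)

variable {m : ℕ} {G : SimpleGraph (Fin m)}

/-- the cliques -/
def clq (G : SimpleGraph (Fin m)) : Finset (Finset (Fin m)) :=
  open Classical in univ.filter fun σ => G.IsClique (σ : Set (Fin m))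

theorem mem_clq {σ : Finset (Fin m)} : σ ∈ clq G ↔ G.IsClique (σ : Set (Fin m)) := by
  classical
  unfold clq
  rw [mem_filter]
  exact ⟨fun h => h.2, fun h => ⟨mem_univ _, h⟩⟩

theorem mem_lk2 {σ τ : Finset (Fin m)} (hσ : G.IsClique (σ : Set (Fin m))) :
    τ ∈ Pool.Agent.Y131.KS.lk (clq G) σ ↔ G.IsClique (τ : Set (Fin m)) ∧
      (τ : Set (Fin m)) ⊆ Pool.Agent.W907.SM.lk G σ := by
  classical
  unfold Pool.Agent.Y131.KS.lk
  rw [mem_filter, mem_clq]
  constructor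
  · rintro ⟨-, h1, h2⟩
    refine ⟨h2.subset (by rw [coe_union]; exact Set.subset_union_left), fun v hv u hu => ?_⟩
    refine h2 (by rw [coe_union]; exact Or.inl hv) (by rw [coe_union]; exact Or.inr hu) ?_
    rintro rfl
    exact disjoint_left.1 h1 hv hu
  · rintro ⟨h1, h2⟩
    refine ⟨mem_univ _, disjoint_left.2 fun v hv hv' => (h2 hv v hv').ne rfl, ?_⟩
    rw [coe_union]
    rintro a (ha | ha) b (hb | hb) hab
    · exact h1 ha hb hab
    · exact h2 ha b hb
    · exact (h2 hb a ha).symm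
    · exact hσ ha hb hab

theorem sp_iff {σ : Finset (Fin m)} (hσ : G.IsClique (σ : Set (Fin m))) (j : ℕ) (c : Finset (Fin m) → ZMod 2) :
    Sp (Pool.Agent.Y131.KS.lk (clq G) σ) j c ↔ c ∈ KK G tr2 (Pool.Agent.W907.SM.lk G σ) ∅ j := by
  rw [mem_KK_tr]
  constructor
  · intro h T hT
    by_contra hc
    obtain ⟨h1, h2⟩ := h T hc
    rw [mem_lk2 hσ] at h1
    exact hT ⟨h1.1, h1.2, h2⟩
  · intro h T hT
    by_contra hc
    apply hT
    refine h T ?_
    rintro ⟨h1, h2, h3⟩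
    exact hc ⟨(mem_lk2 hσ).2 ⟨h1, h2⟩, h3⟩

theorem bdr_iff (c : Finset (Fin m) → ZMod 2) : (∀ ρ, bdr c ρ = 0) ↔ bd (ZMod 2) c = 0 := by
  constructor
  · intro h
    funext ρ
    rw [bd_tr]
    exact h ρ
  · intro h ρ
    have := congrFun h ρ
    rw [bd_tr] at this
    exact this

theorem hsph_clq {n : ℕ} (hG : HSph2 n G) : Pool.Agent.Y131.KS.HSph (clq G) n := by
  classical
  have hle : ∀ σ : Finset (Fin m), G.IsClique (σ : Set (Fin m)) → σ.card ≤ n := fun σ hσ => card_le2 hG σ hσ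
  refine ⟨⟨mem_clq.2 (by rw [coe_empty]; exact SimpleGraph.isClique_empty), fun σ hσ τ hτ => ?_⟩,
    fun σ hσ => hle σ (mem_clq.1 hσ), fun σ hσ j hj c hc hc0 => ?_, fun σ hσ => ?_⟩
  · rw [mem_clq] at hσ ⊢
    exact hσ.subset (by exact_mod_cast hτ)
  · rw [mem_clq] at hσ
    have h1 := hG σ hσ j
    rw [if_neg hj] at h1
    unfold beta at h1
    have h2 := Submodule.eq_of_le_of_finrank_le (BB_le_ZZ G tr2 (Pool.Agent.W907.SM.lk G σ) ∅ j) (by omega)
    have h3 : c ∈ ZZ G tr2 (Pool.Agent.W907.SM.lk G σ) ∅ j := ⟨(sp_iff hσ j c).1 hc, (bdr_iff c).1 hc0⟩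
    rw [← h2] at h3
    obtain ⟨y, hy, hyc⟩ := h3
    refine ⟨y, (sp_iff hσ (j + 1) y).2 hy, fun ρ => ?_⟩
    have h4 : bd (ZMod 2) y = c := hyc
    rw [← h4, bd_tr]
    rfl
  · rw [mem_clq] at hσ
    have hc := hle σ hσ
    have h1 := hG σ hσ (n - σ.card)
    rw [if_pos (by omega)] at h1
    have hK : KK G tr2 (Pool.Agent.W907.SM.lk G σ) ∅ (n - σ.card + 1) = ⊥ := by
      rw [eq_bot_iff]
      intro c hc
      rw [Submodule.mem_bot]
      funext T
      refine (mem_KK_tr.1 hc) T ?_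
      rintro ⟨k1, k2, k3⟩
      have k4 := (mem_lk2 hσ).2 ⟨k1, k2⟩
      unfold Pool.Agent.Y131.KS.lk at k4
      rw [mem_filter, mem_clq] at k4
      have k5 := hle _ k4.2.2
      rw [card_union_of_disjoint k4.2.1] at k5
      omega
    have hB : finrank (ZMod 2) (BB G tr2 (Pool.Agent.W907.SM.lk G σ) ∅ (n - σ.card)) = 0 := by
      have : BB G tr2 (Pool.Agent.W907.SM.lk G σ) ∅ (n - σ.card) = ⊥ := by
        unfold BB
        rw [hK, Submodule.map_bot]
      rw [this, finrank_bot]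
    unfold beta at h1
    rw [hB, Nat.sub_zero] at h1
    obtain ⟨z, hz0, hz⟩ := finrank_eq_one_iff'.1 h1
    refine ⟨z.1, fun h => hz0 (Subtype.ext h), (sp_iff hσ _ _).2 z.2.1, (bdr_iff _).2 z.2.2, fun z' hz' hz'0 => ?_⟩
    obtain ⟨a, ha⟩ := hz ⟨z', (sp_iff hσ _ _).1 hz', (bdr_iff _).1 hz'0⟩
    have ha' : a • z.1 = z' := congrArg Subtype.val ha
    have h2 : ∀ a : ZMod 2, a = 0 ∨ a = 1 := by decide
    rcases h2 a with rfl | rfl
    · left
      rw [← ha', zero_smul]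
    · right
      rw [← ha', one_smul]

theorem emb_of_hsph2 {d n : ℕ} (hG : HSph2 n G) (hn : n ≤ 2 * d + 1) : Emb d G := by
  refine Emb.sphere (clq G) (Function.Embedding.refl _) hn (hsph_clq hG) fun T hT => ?_
  rw [map_refl, mem_clq]
  exact hT

end Pool.Agent.N504.RS.Two
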