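import Pool.Agent.N504.RS.Unc
import Pool.Agent.R782.Bal.Main

/-!
# Vanishing for all the full subcomplexes of colourwise barycentric subdivisions
-/

set_option autoImplicit false
set_option linter.unusedSectionVars false

namespace Pool.Agent.N504.RS

open Finset Pool.Agent.W555.KS Pool.Agent.W907.SG Pool.Agent.W907.SM Pool.Agent.Y131.KS Pool.Agent.R782.Bal
open Pool.Agent.TH652.Above (lv_set lv_sub lv_univ lv_add lv_img P_gor)
open Pool.Agent.TH652.Join (join ljoin)

/-- joins inside of a graph -/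
theorem lv_joinset {V : Type} [Finite V] (G : SimpleGraph V) (A B : Set V) (hAB : ∀ a ∈ A, ∀ b ∈ B, G.Adj a b)
    (i : ℕ) (h : ∀ p q, p + q = i → LV (G.induce A) p ∨ LV (G.induce B) q) : LV (G.induce (A ∪ B)) i := by
  classical
  have hj : LV (join (G.induce A) (G.induce B)) i := ljoin _ _ i h
  rw [← lv_univ] at hj
  have h5 := (lv_img (G := G) (fun x : ↥A ⊕ ↥B => match x with
    | Sum.inl a => a.1
    | Sum.inr b => b.1) Set.univ ?_ ?_ i).1 hj
  · refine lv_set ?_ h5
    ext x
    simp only [Set.mem_image, Set.mem_univ, true_and]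
    constructor
    · rintro (hx | hx)
      · exact ⟨Sum.inl ⟨x, hx⟩, rfl⟩
      · exact ⟨Sum.inr ⟨x, hx⟩, rfl⟩
    · rintro ⟨y | y, rfl⟩
      · exact Or.inl y.2
      · exact Or.inr y.2
  · rintro (u | u) _ (w | w) _ huw
    · exact congrArg Sum.inl (Subtype.ext huw)
    · exfalso
      have h6 : u.1 = w.1 := huw
      exact (hAB u.1 u.2 w.1 w.2).ne h6
    · exfalso
      have h6 : u.1 = w.1 := huw
      exact (hAB w.1 w.2 u.1 u.2).ne h6.symm
    · exact congrArg Sum.inr (Subtype.ext huw)
  · rintro (u | u) _ (w | w) _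
    · exact Iff.rfl
    · exact iff_of_true (hAB u.1 u.2 w.1 w.2) trivial
    · exact iff_of_true (hAB w.1 w.2 u.1 u.2).symm trivial
    · exact Iff.rfl

/-- the obstruction of a complex whose join with a simplex is a subcomplex -/
theorem obs_clq {V : Type} [Finite V] [DecidableEq V] {G : SimpleGraph V} (T : Finset V) : ∀ (D : ℕ) (U : Set V),
    Obs G (T.card + D) → G.IsClique (T : Set V) → (∀ t ∈ T, ∀ u ∈ U, G.Adj t u) → Obs (G.induce U) D := by
  induction T using Finset.induction_on with
  | empty =>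
    intro D U h _ _
    rw [card_empty, zero_add] at h
    exact obs_mono h (Function.Embedding.subtype _) fun a b h => h
  | insert t T ht ih =>
    intro D U h hc hU
    rw [card_insert_of_notMem ht] at h
    have h1 : Obs (G.induce (insert t U)) (D + 1) := by
      refine ih (D + 1) (insert t U) (by rwa [show T.card + (D + 1) = T.card + 1 + D by ring])
        (hc.subset (by rw [coe_insert]; exact Set.subset_insert _ _)) ?_
      rintro s hs u (rfl | hu)
      · refine hc (by rw [coe_insert]; exact Or.inr hs) (by rw [coe_insert]; exact Or.inl rfl) ?_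
        rintro rfl
        exact ht hs
      · exact hU s (mem_insert_of_mem hs) u hu
    refine obs_link h1 ⟨fun x => ⟨x.1, Or.inr x.2⟩, fun a b h => Subtype.ext (by
      have := congrArg Subtype.val h
      exact this)⟩ ⟨t, Or.inl rfl⟩ (fun a b h => h) ?_
    intro a
    exact hU t (mem_insert_self _ _) a.1 a.2

/-- maximal chains between two finite sets -/
theorem exists_chain {α : Type} [DecidableEq α] (s : Finset α) (n : ℕ) : ∀ b : Finset α, b ⊆ s → s.card = b.card + n →
    ∃ F : Finset (Finset α), F.card = n ∧ (∀ x ∈ F, b ⊂ x ∧ x ⊆ s) ∧ ∀ x ∈ F, ∀ y ∈ F, x ⊆ y ∨ y ⊆ x := by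
  induction n with
  | zero =>
    intro b _ _
    exact ⟨∅, rfl, fun x hx => absurd hx (notMem_empty _), fun x hx => absurd hx (notMem_empty _)⟩
  | succ n ih =>
    intro b hb hc
    obtain ⟨v, hv, hvb⟩ := exists_of_ssubset (hb.ssubset_of_ne fun h => by rw [h] at hc; omega)
    obtain ⟨F, h1, h2, h3⟩ := ih (insert v b) (insert_subset hv hb) (by rw [card_insert_of_notMem hvb]; omega)
    have h4 : insert v b ∉ F := fun h => (h2 _ h).1.2 (Subset.refl _)
    refine ⟨insert (insert v b) F, by rw [card_insert_of_notMem h4, h1], ?_, ?_⟩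
    · intro x hx
      rcases mem_insert.1 hx with rfl | hx
      · exact ⟨ssubset_insert hvb, insert_subset hv hb⟩
      · exact ⟨(ssubset_insert hvb).trans (h2 x hx).1, (h2 x hx).2⟩
    · intro x hx y hy
      rcases mem_insert.1 hx with rfl | hx
      · rcases mem_insert.1 hy with rfl | hy
        · exact Or.inl (Subset.refl _)
        · exact Or.inl (h2 y hy).1.1
      · rcases mem_insert.1 hy with rfl | hy
        · exact Or.inr (h2 x hx).1.1
        · exact h3 x hx y hy

variable {N k : ℕ} {X : Finset (Finset (Fin N))} {col : Fin N → Fin k}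

theorem adj_of_sub {σ τ : MF X col} (h : τ.1 ⊂ σ.1) : (cs X col).Adj σ τ := by
  classical
  refine ⟨?_, ?_, fun _ => Or.inr h.subset⟩
  · rintro rfl
    exact h.2 (Subset.refl _)
  · rw [union_eq_left.mpr h.subset]
    exact σ.2.1

theorem mc_of_sub {σ τ : MF X col} (h : τ.1 ⊆ σ.1) : mc τ = mc σ := by
  obtain ⟨v, hv⟩ := τ.2.2.1
  rw [← mc_eq τ hv, ← mc_eq σ (h hv)]

/-- intervals -/
theorem lv_interval (hX : ∀ σ ∈ X, ∀ τ : Finset (Fin N), τ ⊆ σ → τ ∈ X) (σ : MF X col) (b : Finset (Fin N))
    (hb : b ⊂ σ.1) (r : ℕ) (hr : σ.1.card = b.card + 2 * r) (D : Set (MF X col))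
    (hD : ∀ τ ∈ D, b ⊂ τ.1 ∧ τ.1 ⊂ σ.1) (i : ℕ) (hi : r ≤ i) : LV ((cs X col).induce D) i := by
  classical
  have hr1 : 1 ≤ r := by
    have := card_lt_card hb
    omega
  have : Finite (Vb (2 * r)) := by unfold Vb; infer_instance
  have : Fintype (Vb (2 * r)) := Fintype.ofFinite _
  have e1 : LinearOrder (Vb (2 * r)) := IsWellOrder.linearOrder WellOrderingRel
  have hj' : (σ.1 \ b).card = 2 * r := by rw [card_sdiff_of_subset hb.subset]; omega
  set e : Fin (2 * r) ↪ Fin N := ((σ.1 \ b).orderEmbOfFin hj').toEmbedding with he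
  have hr0 : ∀ τ : Finset (Fin (2 * r)), τ.map e ⊆ σ.1 \ b := by
    intro τ v hv
    obtain ⟨w, _, rfl⟩ := mem_map.mp hv
    exact (σ.1 \ b).orderEmbOfFin_mem hj' w
  have hrs : ∀ τ : Finset (Fin (2 * r)), b ∪ τ.map e ⊆ σ.1 := fun τ =>
    union_subset hb.subset ((hr0 τ).trans sdiff_subset)
  have hdis : ∀ τ : Finset (Fin (2 * r)), Disjoint b (τ.map e) := fun τ =>
    disjoint_left.2 fun v hv hv' => (mem_sdiff.1 (hr0 τ hv')).2 hv
  have hfull : (univ : Finset (Fin (2 * r))).map e = σ.1 \ b := by
    refine eq_of_subset_of_card_le (hr0 _) ?_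
    rw [card_map, card_univ, Fintype.card_fin, hj']
  set f : Vb (2 * r) → MF X col := fun τ => ⟨b ∪ τ.1.map e, hX _ σ.2.1 _ (hrs _), (τ.2.1.map).mono subset_union_right,
    fun v hv w hw => σ.2.2.2 v (hrs _ hv) w (hrs _ hw)⟩ with hf
  have hfs : ∀ τ τ' : Vb (2 * r), (f τ).1 ⊆ (f τ').1 ↔ τ.1 ⊆ τ'.1 := by
    intro τ τ'
    constructor
    · intro h v hv
      have h1 : e v ∈ b ∪ τ'.1.map e := h (mem_union_right _ (mem_map_of_mem e hv))
      rcases mem_union.1 h1 with h2 | h2
      · exact absurd (mem_map_of_mem e hv) (disjoint_left.1 (hdis τ.1) h2)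
      · exact (mem_map' e).1 h2
    · intro h
      exact union_subset_union_right (map_subset_map.2 h)
  have hfi : ∀ τ τ' : Vb (2 * r), f τ = f τ' → τ = τ' := by
    intro τ τ' h
    have h1 : (f τ).1 = (f τ').1 := congrArg Subtype.val h
    exact Subtype.ext (Subset.antisymm ((hfs τ τ').1 h1.subset) ((hfs τ' τ).1 h1.symm.subset))
  have h0 := P_gor 0 (2 * r - 1) (Vb (2 * r)) (rb (2 * r)) (rkb (2 * r)) (gor_bool (by omega)) ∅ rfl
    (by rw [coe_empty]; exact SimpleGraph.isClique_empty) (f ⁻¹' D) (by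
      intro a _ u hu
      exact absurd hu (notMem_empty _)) i (by rw [card_empty]; omega)
  have h1 := (lv_img (G := cs X col) f (f ⁻¹' D) (fun a _ b _ h => hfi a b h) ?_ i).1 h0
  · refine lv_set ?_ h1
    ext τ
    constructor
    · intro hτ
      obtain ⟨k1, k2⟩ := hD τ hτ
      have hm : b ∪ (univ.filter (fun w => e w ∈ τ.1)).map e = τ.1 := by
        ext v
        rw [mem_union, mem_map]
        constructor
        · rintro (h | ⟨w, hw, rfl⟩)
          · exact k1.subset h
          · exact (mem_filter.mp hw).2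
        · intro hv
          by_cases hvb : v ∈ b
          · exact Or.inl hvb
          · right
            have h2 : v ∈ (univ : Finset (Fin (2 * r))).map e := by
              rw [hfull, mem_sdiff]
              exact ⟨k2.subset hv, hvb⟩
            obtain ⟨w, _, rfl⟩ := mem_map.mp h2
            exact ⟨w, mem_filter.mpr ⟨mem_univ _, hv⟩, rfl⟩
      have hn : (univ.filter (fun w => e w ∈ τ.1)).Nonempty := by
        rw [nonempty_iff_ne_empty]
        intro h2
        rw [h2, map_empty, union_empty] at hm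
        exact k1.ne hm
      have hu : univ.filter (fun w => e w ∈ τ.1) ≠ univ := by
        intro h2
        rw [h2, hfull, union_sdiff_of_subset hb.subset] at hm
        exact k2.ne hm.symm
      have hfτ : f ⟨univ.filter (fun w => e w ∈ τ.1), hn, hu⟩ = τ := Subtype.ext hm
      exact ⟨_, by rw [Set.mem_preimage, hfτ]; exact hτ, hfτ⟩
    · rintro ⟨τ', h2, rfl⟩
      exact h2
  · intro a _ b' _
    rw [adjb]
    constructor
    · intro h
      have hne : a ≠ b' := fun h2 => h.1 (by rw [h2])
      have h3 := h.2.2 fun v hv w hw => σ.2.2.2 v (hrs _ hv) w (hrs _ hw)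
      rw [hfs, hfs] at h3
      rcases h3 with h3 | h3
      · exact Or.inl (h3.ssubset_of_ne fun h4 => hne (Subtype.ext h4))
      · exact Or.inr (h3.ssubset_of_ne fun h4 => hne (Subtype.ext h4.symm))
    · intro h
      have hne : a ≠ b' := by
        rintro rfl
        rcases h with h | h <;> exact h.2 (Finset.Subset.refl _)
      refine ⟨fun h2 => hne (hfi _ _ h2), hX _ σ.2.1 _ (union_subset (hrs _) (hrs _)), fun _ => ?_⟩
      rw [hfs, hfs]
      exact h.imp (fun h => h.subset) (fun h => h.subset)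

end Pool.Agent.N504.RS
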