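import Pool.Agent.N504.RS.HerC

/-!
# Vanishing for all the full subcomplexes of colourwise barycentric subdivisions: the induction
-/

set_option autoImplicit false
set_option linter.unusedSectionVars false

namespace Pool.Agent.N504.RS

open Finset Pool.Agent.W555.KS Pool.Agent.W907.SG Pool.Agent.W907.SM Pool.Agent.Y131.KS Pool.Agent.R782.Bal
open Pool.Agent.TH652.Above (lv_set lv_sub lv_univ lv_add lv_img)
open Pool.Agent.TH652.Join (join ljoin)

variable {N k : ℕ} {X : Finset (Finset (Fin N))} {col : Fin N → Fin k}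

theorem sum_sub_update (a ρ : Fin k → ℕ) (c : Fin k) (s : ℕ) (h1 : ρ c ≤ s) (h2 : s ≤ a c) :
    ∑ x, (a x - Function.update ρ c s x) + (s - ρ c) = ∑ x, (a x - ρ x) := by
  classical
  rw [← add_sum_erase univ (fun x => a x - Function.update ρ c s x) (mem_univ c),
    ← add_sum_erase univ (fun x => a x - ρ x) (mem_univ c)]
  have h3 : ∑ x ∈ univ.erase c, (a x - Function.update ρ c s x) = ∑ x ∈ univ.erase c, (a x - ρ x) := by
    refine sum_congr rfl fun x hx => ?_
    rw [Function.update_of_ne (ne_of_mem_erase hx)]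
  rw [h3, Function.update_self]
  omega

theorem herc (hX : ∀ σ ∈ X, ∀ τ : Finset (Fin N), τ ⊆ σ → τ ∈ X) (a : Fin k → ℕ)
    (hsz : ∀ σ ∈ X, ∀ c, (∀ v ∈ σ, col v = c) → σ.card ≤ 2 * a c) (D : ℕ) (hO : Obs (cs X col) D) :
    ∀ (m : ℕ) (U : Set (MF X col)) (bs : Fin k → Finset (Fin N)) (ρ : Fin k → ℕ) (T : Finset (MF X col)),
      (∀ τ ∈ U, bs (mc τ) ⊂ τ.1) → (∀ c, (bs c).card = 2 * ρ c) → ∑ c, (a c - ρ c) ≤ m →
      (cs X col).IsClique (T : Set (MF X col)) → T.card + 2 * m = D →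
      (∀ t ∈ T, ∀ u ∈ U, (cs X col).Adj t u) → (∀ t ∈ T, t.1 ⊆ bs (mc t)) →
      ∀ C : Set (MF X col), C ⊆ U → ∀ i, m ≤ i → LV ((cs X col).induce C) i := by
  classical
  intro m
  induction m using Nat.strong_induction_on with
  | _ m ih =>
  intro U bs ρ T I1 I2 I3 I4 I5 I6 I7 C hCU i hi
  -- the links
  have key : ∀ σ : MF X col, σ ∈ U → Even σ.1.card → ∀ (C : Set (MF X col)), C ⊆ U → ∀ j, m ≤ j + 1 →
      LV ((cs X col).induce (C ∩ (cs X col).neighborSet σ)) j := by
    intro σ hσU hσe C hCU j hj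
    obtain ⟨s, hs⟩ := hσe
    have hb := I1 σ hσU
    have hbc := card_lt_card hb
    have hsa : σ.1.card ≤ 2 * a (mc σ) := hsz σ.1 σ.2.1 (mc σ) fun v hv => mc_eq σ hv
    have hρ := I2 (mc σ)
    have hρs : ρ (mc σ) < s := by omega
    obtain ⟨r, hr⟩ : ∃ r, r = s - ρ (mc σ) := ⟨_, rfl⟩
    have hsum := sum_sub_update a ρ (mc σ) s hρs.le (by omega)
    have hrm : r ≤ m := by omega
    have hr1 : 1 ≤ r := by omega
    -- a chain from the base to `σ`
    obtain ⟨F, hF1, hF2, hF3⟩ := exists_chain σ.1 (2 * r) (bs (mc σ)) hb.subset (by omega)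
    have hmf : ∀ x ∈ F, x ∈ X ∧ x.Nonempty ∧ ∀ v ∈ x, ∀ w ∈ x, col v = col w := by
      intro x hx
      obtain ⟨h1, h2⟩ := hF2 x hx
      refine ⟨hX _ σ.2.1 _ h2, ?_, fun v hv w hw => σ.2.2.2 v (h2 hv) w (h2 hw)⟩
      rw [nonempty_iff_ne_empty]
      rintro rfl
      exact h1.2 (empty_subset _)
    obtain ⟨T0, hT0⟩ : ∃ T0 : Finset (MF X col), T0 = F.attach.image fun x => ⟨x.1, hmf x.1 x.2⟩ := ⟨_, rfl⟩
    have hT0m : ∀ τ : MF X col, τ ∈ T0 ↔ τ.1 ∈ F := by
      intro τ
      rw [hT0, mem_image]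
      constructor
      · rintro ⟨x, _, rfl⟩
        exact x.2
      · intro h
        exact ⟨⟨τ.1, h⟩, mem_attach _ _, rfl⟩
    have hT0c : T0.card = 2 * r := by
      rw [hT0, card_image_of_injective, card_attach, hF1]
      intro x y hxy
      have h1 : x.1 = y.1 := congrArg (fun z : MF X col => z.1) hxy
      exact Subtype.ext h1
    have hmc0 : ∀ τ ∈ T0, mc τ = mc σ := fun τ hτ => mc_of_sub (hF2 _ ((hT0m τ).1 hτ)).2
    have hT0dis : Disjoint T T0 := by
      rw [disjoint_left]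
      intro t ht ht0
      have h1 := I7 t ht
      rw [hmc0 t ht0] at h1
      exact (hF2 _ ((hT0m t).1 ht0)).1.2 h1
    have hTT0 : ∀ t ∈ T, ∀ τ ∈ T0, (cs X col).Adj t τ := by
      intro t ht τ hτ
      obtain ⟨h1, h2⟩ := hF2 _ ((hT0m τ).1 hτ)
      have h3 := I6 t ht σ hσU
      refine ⟨fun h => disjoint_left.1 hT0dis ht (h ▸ hτ), hX _ h3.2.1 _ (union_subset_union_right h2), fun h => ?_⟩
      left
      have h4 : mc t = mc τ := by
        obtain ⟨v, hv⟩ := t.2.2.1
        obtain ⟨w, hw⟩ := τ.2.2.1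
        rw [← mc_eq t hv, ← mc_eq τ hw]
        exact h v hv w hw
      have h5 := I7 t ht
      rw [h4, hmc0 τ hτ] at h5
      exact h5.trans h1.subset
    -- the upper link
    obtain ⟨U', hU'⟩ : ∃ U' : Set (MF X col), U' = {ω | ω ∈ U ∧ (cs X col).Adj σ ω ∧ ¬ ω.1 ⊂ σ.1} := ⟨_, rfl⟩
    have hU'm : ∀ ω, ω ∈ U' ↔ ω ∈ U ∧ (cs X col).Adj σ ω ∧ ¬ ω.1 ⊂ σ.1 := fun ω => by rw [hU']; rfl
    have hup : ∀ ω ∈ U', mc ω = mc σ → σ.1 ⊂ ω.1 := by
      intro ω hω hc
      obtain ⟨h1, h2, h3⟩ := (hU'm ω).1 hω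
      rcases adj_same h2 hc.symm with h4 | h4
      · exact h4.ssubset_of_ne fun h5 => h2.1 (Subtype.ext h5)
      · exact absurd (h4.ssubset_of_ne fun h5 => h2.1 (Subtype.ext h5.symm)) h3
    have hUp : ∀ (C' : Set (MF X col)), C' ⊆ U' → ∀ q, m - r ≤ q → LV ((cs X col).induce C') q := by
      refine ih (m - r) (by omega) U' (Function.update bs (mc σ) σ.1) (Function.update ρ (mc σ) s) (T ∪ T0)
        ?_ ?_ ?_ ?_ ?_ ?_ ?_
      · intro ω hω
        by_cases hc : mc ω = mc σ
        · rw [hc, Function.update_self]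
          exact hup ω hω hc
        · rw [Function.update_of_ne hc]
          exact I1 ω ((hU'm ω).1 hω).1
      · intro c
        by_cases hc : c = mc σ
        · rw [hc, Function.update_self, Function.update_self]
          omega
        · rw [Function.update_of_ne hc, Function.update_of_ne hc]
          exact I2 c
      · omega
      · intro t ht t' ht' hne
        rw [mem_coe, mem_union] at ht ht'
        rcases ht with ht | ht
        · rcases ht' with ht' | ht'
          · exact I4 ht ht' hne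
          · exact hTT0 t ht t' ht'
        · rcases ht' with ht' | ht'
          · exact (hTT0 t' ht' t ht).symm
          · have h1 := (hF2 _ ((hT0m t).1 ht)).2
            have h2 := (hF2 _ ((hT0m t').1 ht')).2
            refine ⟨hne, hX _ σ.2.1 _ (union_subset h1 h2), fun _ => hF3 _ ((hT0m t).1 ht) _ ((hT0m t').1 ht')⟩
      · rw [card_union_of_disjoint hT0dis, hT0c]
        omega
      · intro t ht ω hω
        rcases mem_union.1 ht with ht | ht
        · exact I6 t ht ω ((hU'm ω).1 hω).1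
        · obtain ⟨h1, h2⟩ := hF2 _ ((hT0m t).1 ht)
          obtain ⟨k1, k2, k3⟩ := (hU'm ω).1 hω
          refine ⟨fun h => ?_, hX _ k2.2.1 _ (union_subset_union_left h2), fun h => ?_⟩
          · subst h
            exact k3 (h2.ssubset_of_ne fun h5 => k2.1 (Subtype.ext h5.symm))
          · have h4 : mc ω = mc σ := by
              obtain ⟨v, hv⟩ := t.2.2.1
              obtain ⟨w, hw⟩ := ω.2.2.1
              rw [← mc_eq σ (h2 hv), ← mc_eq ω hw]
              exact (h v hv w hw).symm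
            exact Or.inl (h2.trans (hup ω hω h4).subset)
      · intro t ht
        rcases mem_union.1 ht with ht | ht
        · by_cases hc : mc t = mc σ
          · have h5 := I7 t ht
            rw [hc] at h5
            rw [hc, Function.update_self]
            exact h5.trans hb.subset
          · rw [Function.update_of_ne hc]
            exact I7 t ht
        · rw [hmc0 t ht, Function.update_self]
          exact (hF2 _ ((hT0m t).1 ht)).2
    -- the join
    have hjoin := lv_joinset (cs X col) {τ | τ ∈ C ∧ τ.1 ⊂ σ.1} {ω | ω ∈ C ∧ ω ∈ U'} (by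
      rintro τ ⟨_, hτ⟩ ω ⟨_, hω⟩
      obtain ⟨k1, k2, k3⟩ := (hU'm ω).1 hω
      refine ⟨fun h => ?_, hX _ k2.2.1 _ (union_subset_union_left hτ.subset), fun h => ?_⟩
      · subst h
        exact k3 hτ
      · have h4 : mc ω = mc σ := by
          obtain ⟨v, hv⟩ := τ.2.2.1
          obtain ⟨w, hw⟩ := ω.2.2.1
          rw [← mc_eq σ (hτ.subset hv), ← mc_eq ω hw]
          exact (h v hv w hw).symm
        exact Or.inl (hτ.subset.trans (hup ω hω h4).subset)) j (by
      intro p q hpq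
      rcases Nat.lt_or_ge p r with h | h
      · right
        exact hUp _ (fun ω hω => hω.2) q (by omega)
      · left
        refine lv_interval hX σ (bs (mc σ)) hb r (by omega) _ ?_ p h
        rintro τ ⟨h1, h2⟩
        have h3 := I1 τ (hCU h1)
        rw [mc_of_sub h2.subset] at h3
        exact ⟨h3, h2⟩)
    refine lv_set ?_ hjoin
    ext ω
    constructor
    · rintro ⟨h1, h2⟩
      by_cases h3 : ω.1 ⊂ σ.1
      · exact Or.inl ⟨h1, h3⟩
      · exact Or.inr ⟨h1, (hU'm ω).2 ⟨hCU h1, h2, h3⟩⟩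
    · rintro (⟨h1, h2⟩ | ⟨h1, h2⟩)
      · exact ⟨h1, adj_of_sub h2⟩
      · exact ⟨h1, ((hU'm ω).1 h2).2.1⟩
  -- adding the even simplices one after the other
  obtain ⟨n, hn⟩ : ∃ n, (C ∩ {σ | Even σ.1.card}).ncard = n := ⟨_, rfl⟩
  induction n generalizing C with
  | zero =>
    have hodd : ∀ σ ∈ C, ¬ Even σ.1.card := by
      intro σ hσ h
      rw [Set.ncard_eq_zero (Set.toFinite _)] at hn
      have : σ ∈ C ∩ {σ | Even σ.1.card} := ⟨hσ, h⟩
      rw [hn] at this
      exact this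
    have hcard : Fintype.card (Σ c : Fin k, Fin (a c - ρ c)) ≤ Fintype.card (Fin m) := by
      rw [Fintype.card_sigma, Fintype.card_fin]
      simpa using I3
    obtain ⟨ι⟩ := Function.Embedding.nonempty_of_card_le hcard
    have hlt : ∀ σ : ↥C, (σ.1.1.card - 1) / 2 - ρ (mc σ.1) < a (mc σ.1) - ρ (mc σ.1) ∧
        ρ (mc σ.1) ≤ (σ.1.1.card - 1) / 2 := by
      intro σ
      have h1 := hsz σ.1.1 σ.1.2.1 (mc σ.1) fun v hv => mc_eq σ.1 hv
      have h2 := hodd σ.1 σ.2
      rw [Nat.not_even_iff_odd] at h2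
      obtain ⟨r, hr⟩ := h2
      have h3 := card_lt_card (I1 σ.1 (hCU σ.2))
      rw [I2] at h3
      omega
    have hOC : Obs ((cs X col).induce C) (2 * m) :=
      obs_clq T (2 * m) C (by rw [I5]; exact hO) I4 fun t ht u hu => I6 t ht u (hCU hu)
    intro _ _
    refine l2_top (m := m) (col := fun σ => ι ⟨mc σ.1, ⟨(σ.1.1.card - 1) / 2 - ρ (mc σ.1), (hlt σ).1⟩⟩) ?_ hOC i hi
    intro σ τ hστ h
    have hστ : (cs X col).Adj σ.1 τ.1 := hστ
    have h1 := ι.injective h
    rw [Sigma.mk.injEq] at h1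
    obtain ⟨h2, h3⟩ := h1
    have h4 : (σ.1.1.card - 1) / 2 - ρ (mc σ.1) = (τ.1.1.card - 1) / 2 - ρ (mc τ.1) := by
      have h5 : ∀ (n m : ℕ) (_ : n = m) (x : Fin n) (y : Fin m), x ≍ y → x.1 = y.1 := by
        rintro n m rfl x y h
        rw [eq_of_heq h]
      exact h5 _ _ (by rw [h2]) _ _ h3
    have hσ := hodd σ.1 σ.2
    have hτ := hodd τ.1 τ.2
    rw [Nat.not_even_iff_odd] at hσ hτ
    have h7 := (hlt σ).2
    have h8 := (hlt τ).2
    rw [h2] at h4 h7
    have h5 : σ.1.1.card = τ.1.1.card := by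
      obtain ⟨r, hr⟩ := hσ
      obtain ⟨s, hs⟩ := hτ
      omega
    rcases adj_same hστ h2 with h6 | h6
    · exact hστ.1 (Subtype.ext (eq_of_subset_of_card_le h6 h5.ge))
    · exact hστ.1 (Subtype.ext (eq_of_subset_of_card_le h6 h5.le).symm)
  | succ n ihn =>
    obtain ⟨v, hv⟩ : (C ∩ {σ | Even σ.1.card}).Nonempty := by
      rw [Set.nonempty_iff_ne_empty]
      intro h
      rw [h, Set.ncard_empty] at hn
      omega
    refine lv_add (cs X col) C v hv.1 i (ihn _ (Set.sdiff_subset.trans hCU) ?_) fun j hj =>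
      key v (hCU hv.1) hv.2 C hCU j (by omega)
    have h1 : (C \ {v}) ∩ {σ | Even σ.1.card} = (C ∩ {σ | Even σ.1.card}) \ {v} := by
      ext u
      simp only [Set.mem_sdiff, Set.mem_inter_iff, Set.mem_singleton_iff]
      tauto
    rw [h1, Set.ncard_sdiff_singleton_of_mem hv, hn]
    rfl

/-- **Theorem.** -/
theorem lv_cs_all {d : ℕ} (hX : ∀ σ ∈ X, ∀ τ : Finset (Fin N), τ ⊆ σ → τ ∈ X) (hs : Small d X col)
    (hE : EmbX d X col) (C : Set (MF X col)) (i : ℕ) (hi : d < i) : LV ((cs X col).induce C) i := by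
  obtain ⟨a, h1, h2⟩ := hs
  refine herc hX a h2 (2 * (d + 1)) (hE.emb hX).obs (d + 1) Set.univ (fun _ => ∅) (fun _ => 0) ∅ ?_ ?_ ?_ ?_ ?_ ?_ ?_
    C (Set.subset_univ _) i hi
  · intro τ _
    exact τ.2.2.1.empty_ssubset
  · intro c; rfl
  · simpa using h1
  · rw [coe_empty]; exact SimpleGraph.isClique_empty
  · rw [card_empty, zero_add]
  · intro t ht; exact absurd ht (notMem_empty _)
  · intro t ht; exact absurd ht (notMem_empty _)

end Pool.Agent.N504.RS
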