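import Pool.Agent.N504.RS.Rel3
import Pool.Agent.N504.RS.Brid
import Pool.Agent.N496.LT.C1
import Pool.Agent.N496.LT.C2
import Pool.Agent.N496.LT.E1
import Pool.Agent.N496.LT.E2
import Pool.Agent.Y132.SI.Free

/-!
# Edge subdivisions of flag homology spheres relative to a coloured full subcomplex
-/

set_option autoImplicit false

noncomputable section

namespace Pool.Agent.N504.RS

open Pool.Agent.W907.SG Pool.Agent.W907.SM Pool.Agent.R782.Bal Pool.Agent.N496.LT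
open Pool.Agent.TH652.Above (HSph singer_of_above lv_univ)
open Pool.Agent.N504.RS.Two (HSph2 e1_two emb_of_hsph2)

theorem sub_hsph2 {m n k : ℕ} {G : SimpleGraph (Fin m)} {H : SimpleGraph (Fin n)} (h : Sub G H)
    (hG : HSph2 k G) : HSph2 k H := by
  induction h with
  | refl => exact hG
  | step H s t hst _ ih => exact e1_two hst ih

theorem rel4 {d n N : ℕ} (H : SimpleGraph (Fin N)) (hd : 1 ≤ d) (hn : n = 2 * d ∨ n = 2 * d + 1)
    (hS : HSph n H) (hS2 : HSph2 n H) (B : Set (Fin N))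
    (c : Fin N → Fin (d + 1)) (hc : ∀ u ∈ B, ∀ v ∈ B, H.Adj u v → c u ≠ c v) :
    ∃ (m : ℕ) (h : N ≤ m) (S : SimpleGraph (Fin m)), Sub H S ∧ HSph n S ∧ HSph2 n S ∧
      (∀ u ∈ B, ∀ v ∈ B, S.Adj (Fin.castLE h u) (Fin.castLE h v) ↔ H.Adj u v) ∧
      (∀ i : ℕ, 2 * i ≠ n → L2Van S i) ∧
      (∀ (C : Set (Fin m)) (i : ℕ), d < i → LV (S.induce C) i) := by
  obtain ⟨m, h, S, h1, h2, h3⟩ := rel3 (c2 c1) H hd
    (fun m S hm => (emb_of_hsph2 (sub_hsph2 hm hS2) (by omega)).obs) B c hc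
  have h4 := h1.hsph e1 hS
  refine ⟨m, h, S, h1, h4, sub_hsph2 h1 hS2, h2, fun i hi => ?_, h3⟩
  refine singer_of_above h4 (fun i hi => ?_) i hi
  have h5 := h3 Set.univ i (by omega)
  rw [lv_univ] at h5
  exact h5 _ _

end Pool.Agent.N504.RS
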