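import Pool.Agent.N496.LT.Stm2

set_option autoImplicit false

/-!
# Subdividing the monochromatic edges when there are no monochromatic triangles, with the colours of the midpoints

Extends the lemma C3 of `Pool/Agent/N496/LT/C3.lean` (helper496 and coworkers), with the same proof.
-/

namespace Pool.Agent.N504.RS

open Pool.Agent.N496.LT

/-- the statement for a set of monochromatic edges -/
theorem tri_aux (n : ℕ) (G : SimpleGraph ℕ) (col : ℕ → ℕ) (hB : Bd n G)
    (hT : ∀ x y z, G.Adj x y → G.Adj y z → G.Adj x z → col x = col y → col y ≠ col z)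
    (M : Finset (Sym2 ℕ)) : (∀ e ∈ M, ∃ a b, e = s(a, b) ∧ G.Adj a b ∧ col a = col b) →
    ∃ (n' : ℕ) (G' : SimpleGraph ℕ) (e : ℕ → Sym2 ℕ), n ≤ n' ∧ SubN n G n' G' ∧ Bd n' G' ∧
      (∀ x y, x < n → y < n → (G'.Adj x y ↔ G.Adj x y ∧ s(x, y) ∉ M)) ∧
      (∀ m, n ≤ m → m < n' → e m ∈ M) ∧
      (∀ m m', n ≤ m → m < n' → n ≤ m' → m' < n' → e m = e m' → m = m') ∧
      (∀ m, n ≤ m → m < n' → ∃ s t, e m = s(s, t) ∧ s < n ∧ t < n ∧ s ≠ t ∧ G.Adj s t ∧ col s = col t ∧
        ¬ G'.Adj s t ∧ G'.Adj m s ∧ G'.Adj m t ∧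
        ∀ u, G'.Adj m u → u ≠ s → u ≠ t → G'.Adj u s ∧ G'.Adj u t) := by
  classical
  induction M using Finset.induction_on with
  | empty =>
    intro _
    refine ⟨n, G, fun _ => s(0, 0), le_rfl, SubN.refl, hB, fun x y _ _ => by simp, fun m h1 h2 => ?_,
      fun m m' h1 h2 => ?_, fun m h1 h2 => ?_⟩ <;> omega
  | insert e M he ih =>
    intro hM
    obtain ⟨n', G', ef, hn, hS, hB', h1, hef1, hef2, h2⟩ := ih fun e' h => hM e' (Finset.mem_insert_of_mem h)
    obtain ⟨a, b, rfl, hab, hc⟩ := hM e (Finset.mem_insert_self _ _)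
    have ha : a < n := hB _ _ hab
    have hb : b < n := hB _ _ hab.symm
    have hne : a ≠ b := hab.ne
    have hab' : G'.Adj a b := (h1 a b ha hb).2 ⟨hab, he⟩
    have g1 : ∀ x y, x < n → y < n → ((sdN G' n' a b).Adj x y ↔
        G.Adj x y ∧ s(x, y) ∉ insert s(a, b) M) := by
      intro x y hx hy
      rw [Finset.mem_insert, not_or]
      constructor
      · rintro (⟨_, _, k1, k2⟩ | ⟨k, _⟩ | ⟨k, _⟩)
        · obtain ⟨k3, k4⟩ := (h1 x y hx hy).1 k1
          exact ⟨k3, k2, k4⟩
        · omega
        · omega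
      · rintro ⟨k1, k2, k3⟩
        exact Or.inl ⟨by omega, by omega, (h1 x y hx hy).2 ⟨k1, k3⟩, k2⟩
    have eold : ∀ m, m < n' → Function.update ef n' s(a, b) m = ef m := by
      intro m hm
      exact Function.update_of_ne (by omega) _ _
    refine ⟨n' + 1, sdN G' n' a b, Function.update ef n' s(a, b), by omega, SubN.step n' G' a b hab' hS, ?_, g1,
      ?_, ?_, ?_⟩
    · rintro x y (⟨_, _, k1, _⟩ | ⟨k, _⟩ | ⟨_, _, k⟩)
      · have := hB' _ _ k1
        omega
      · omega
      · rcases k with k | k | ⟨k, _⟩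
        · omega
        · omega
        · have := hB' _ _ k.symm
          omega
    · intro m hm1 hm2
      by_cases hmn : m = n'
      · subst hmn
        rw [Function.update_self]
        exact Finset.mem_insert_self _ _
      · rw [eold m (by omega)]
        exact Finset.mem_insert_of_mem (hef1 m hm1 (by omega))
    · intro m m' hm1 hm2 hm3 hm4 h
      by_cases hmn : m = n'
      · by_cases hmn' : m' = n'
        · omega
        · rw [eold m' (by omega), hmn, Function.update_self] at h
          exact absurd (h ▸ hef1 m' hm3 (by omega)) he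
      · by_cases hmn' : m' = n'
        · rw [eold m (by omega), hmn', Function.update_self] at h
          exact absurd (h ▸ hef1 m hm1 (by omega)) he
        · rw [eold m (by omega), eold m' (by omega)] at h
          exact hef2 m m' hm1 (by omega) hm3 (by omega) h
    · intro m hm1 hm2
      by_cases hmn : m = n'
      · subst hmn
        refine ⟨a, b, Function.update_self _ _ _, ha, hb, hne, hab, hc, ?_, ?_, ?_, ?_⟩
        · intro k
          exact ((g1 a b ha hb).1 k).2 (Finset.mem_insert_self _ _)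
        · exact Or.inr (Or.inl ⟨rfl, by omega, Or.inl rfl⟩)
        · exact Or.inr (Or.inl ⟨rfl, by omega, Or.inr (Or.inl rfl)⟩)
        · intro u hu hua hub
          rcases hu with ⟨k, _⟩ | ⟨_, k1, k2⟩ | ⟨_, k, _⟩
          · exact absurd rfl k
          · rcases k2 with k2 | k2 | ⟨k2, k3⟩
            · exact absurd k2 hua
            · exact absurd k2 hub
            · constructor
              · refine Or.inl ⟨k1, by omega, k2.symm, ?_⟩
                rw [Ne, Sym2.eq_iff]
                rintro (⟨r1, _⟩ | ⟨r1, _⟩)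
                · exact hua r1
                · exact hub r1
              · refine Or.inl ⟨k1, by omega, k3.symm, ?_⟩
                rw [Ne, Sym2.eq_iff]
                rintro (⟨r1, _⟩ | ⟨r1, _⟩)
                · exact hua r1
                · exact hub r1
          · exact absurd rfl k
      · obtain ⟨s, t, hest, hs, ht, hst, hGst, hcst, hnst, hms, hmt, hu⟩ := h2 m hm1 (by omega)
        have tri : ∀ w, w < n → G'.Adj w s → G'.Adj w t → col w = col s → False := by
          intro w hw k1 k2 k3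
          exact hT w s t ((h1 w s hw hs).1 k1).1 hGst ((h1 w t hw ht).1 k2).1 k3 hcst
        have inM : s(s, t) ∈ M := by
          by_contra hcon
          exact hnst ((h1 s t hs ht).2 ⟨hGst, hcon⟩)
        have hne2 : s(a, b) ≠ s(s, t) := fun k => he (k ▸ inM)
        have old : ∀ w, w < n → G'.Adj m w → (sdN G' n' a b).Adj m w := by
          intro w hw k
          refine Or.inl ⟨hmn, by omega, k, ?_⟩
          rw [Ne, Sym2.eq_iff]
          rintro (⟨r1, _⟩ | ⟨r1, _⟩) <;> omega
        refine ⟨s, t, by rw [eold m (by omega), hest], hs, ht, hst, hGst, hcst, ?_, old s hs hms, old t ht hmt, ?_⟩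
        · intro k
          obtain ⟨k1, k2⟩ := (g1 s t hs ht).1 k
          exact k2 (Finset.mem_insert_of_mem inM)
        · intro u hmu hus hut
          by_cases hun : u = n'
          · subst hun
            have k : G'.Adj a m ∧ G'.Adj b m := by
              rcases hmu with ⟨_, k, _⟩ | ⟨k, _⟩ | ⟨_, _, k⟩
              · exact absurd rfl k
              · exact absurd k hmn
              · rcases k with k | k | k
                · omega
                · omega
                · exact k
            have ka := hu a k.1.symm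
            have kb := hu b k.2.symm
            by_cases e1 : a = s
            · have n1 : b ≠ s := fun r => hne (e1.trans r.symm)
              have n2 : b ≠ t := fun r => hne2 (by rw [e1, r])
              exact (tri b hb (kb n1 n2).1 (kb n1 n2).2 (by rw [← hc, e1])).elim
            by_cases e2 : a = t
            · have n2 : b ≠ t := fun r => hne (e2.trans r.symm)
              have n1 : b ≠ s := fun r => hne2 (by rw [e2, r, Sym2.eq_swap])
              exact (tri b hb (kb n1 n2).1 (kb n1 n2).2 (by rw [← hc, e2, hcst])).elim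
            by_cases e3 : b = s
            · exact (tri a ha (ka e1 e2).1 (ka e1 e2).2 (by rw [hc, e3])).elim
            by_cases e4 : b = t
            · exact (tri a ha (ka e1 e2).1 (ka e1 e2).2 (by rw [hc, e4, hcst])).elim
            exact ⟨Or.inr (Or.inl ⟨rfl, by omega, Or.inr (Or.inr ⟨(ka e1 e2).1, (kb e3 e4).1⟩)⟩),
              Or.inr (Or.inl ⟨rfl, by omega, Or.inr (Or.inr ⟨(ka e1 e2).2, (kb e3 e4).2⟩)⟩)⟩
          · have k : G'.Adj m u := by
              rcases hmu with ⟨_, _, k, _⟩ | ⟨k, _⟩ | ⟨k, _⟩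
              · exact k
              · exact absurd k hmn
              · exact absurd k hun
            obtain ⟨k1, k2⟩ := hu u k hus hut
            constructor
            · refine Or.inl ⟨hun, by omega, k1, fun r => ?_⟩
              rcases Sym2.eq_iff.1 r with ⟨r1, r2⟩ | ⟨r1, r2⟩
              · exact tri u (by omega) k1 k2 (by rw [r1, r2, hc])
              · exact tri u (by omega) k1 k2 (by rw [r1, r2, hc])
            · refine Or.inl ⟨hun, by omega, k2, fun r => ?_⟩
              rcases Sym2.eq_iff.1 r with ⟨r1, r2⟩ | ⟨r1, r2⟩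
              · exact tri u (by omega) k1 k2 (by rw [hcst, r1, r2, hc])
              · exact tri u (by omega) k1 k2 (by rw [hcst, r1, r2, hc])

/-- **Subdivision of the monochromatic edges.** -/
theorem tri (n : ℕ) (G : SimpleGraph ℕ) (col : ℕ → ℕ) (hB : Bd n G)
    (hT : ∀ x y z, G.Adj x y → G.Adj y z → G.Adj x z → col x = col y → col y ≠ col z) :
    ∃ (n' : ℕ) (G' : SimpleGraph ℕ) (κ : ℕ → ℕ), n ≤ n' ∧ SubN n G n' G' ∧ Bd n' G' ∧
      (∀ x y, x < n → y < n → (G'.Adj x y ↔ G.Adj x y ∧ col x ≠ col y)) ∧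
      (∀ x, x < n → κ x = col x) ∧ (∀ x, ∃ y, κ x = col y) ∧
      (∀ m, n ≤ m → m < n' → ∃ s t, s < n ∧ t < n ∧ s ≠ t ∧ ¬ G'.Adj s t ∧ G'.Adj m s ∧ G'.Adj m t ∧
        κ s = κ m ∧ κ t = κ m ∧ ∀ u, G'.Adj m u → u ≠ s → u ≠ t → G'.Adj u s ∧ G'.Adj u t ∧ κ u ≠ κ m) := by
  classical
  obtain ⟨n', G', e, h1, h2, h3, h4, he1, he2, h5⟩ := tri_aux n G col hB hT
    (((Finset.range n ×ˢ Finset.range n).filter fun p => G.Adj p.1 p.2 ∧ col p.1 = col p.2).image
      fun p => s(p.1, p.2)) (by
      intro e he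
      obtain ⟨⟨a, b⟩, hp, rfl⟩ := Finset.mem_image.1 he
      exact ⟨a, b, rfl, (Finset.mem_filter.1 hp).2⟩)
  have hadj : ∀ x y, x < n → y < n → (G'.Adj x y ↔ G.Adj x y ∧ col x ≠ col y) := by
    intro x y hx hy
    rw [h4 x y hx hy]
    refine and_congr_right fun hxy => not_congr ?_
    rw [Finset.mem_image]
    constructor
    · rintro ⟨⟨a, b⟩, hp, hab⟩
      obtain ⟨_, _, hc⟩ := Finset.mem_filter.1 hp
      rcases Sym2.eq_iff.1 hab with ⟨r1, r2⟩ | ⟨r1, r2⟩
      · rw [← r1, ← r2]; exact hc
      · rw [← r1, ← r2]; exact hc.symm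
    · intro hc
      exact ⟨(x, y), Finset.mem_filter.2 ⟨Finset.mem_product.2 ⟨Finset.mem_range.2 hx,
        Finset.mem_range.2 hy⟩, hxy, hc⟩, rfl⟩
  have h6 : ∀ m, ∃ s t, n ≤ m → m < n' → (e m = s(s, t) ∧ s < n ∧ t < n ∧ s ≠ t ∧ G.Adj s t ∧ col s = col t ∧
        ¬ G'.Adj s t ∧ G'.Adj m s ∧ G'.Adj m t ∧
        ∀ u, G'.Adj m u → u ≠ s → u ≠ t → G'.Adj u s ∧ G'.Adj u t) := by
    intro m
    by_cases hm : n ≤ m ∧ m < n'
    · obtain ⟨s, t, h⟩ := h5 m hm.1 hm.2
      exact ⟨s, t, fun _ _ => h⟩
    · exact ⟨0, 0, fun a b => absurd ⟨a, b⟩ hm⟩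
  choose S T hST using h6
  obtain ⟨κ, hκ⟩ : ∃ κ : ℕ → ℕ, κ = fun x => if x < n then col x else col (S x) := ⟨_, rfl⟩
  have hκ1 : ∀ x, x < n → κ x = col x := fun x hx => by
    rw [hκ]
    dsimp only
    rw [if_pos hx]
  have hκ2 : ∀ x, n ≤ x → κ x = col (S x) := fun x hx => by
    rw [hκ]
    dsimp only
    rw [if_neg (by omega)]
  refine ⟨n', G', κ, h1, h2, h3, hadj, hκ1, ?_, ?_⟩
  · intro x
    rcases Nat.lt_or_ge x n with h | h
    · exact ⟨x, hκ1 x h⟩
    · exact ⟨S x, hκ2 x h⟩
  · intro m hm1 hm2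
    obtain ⟨k1, k2, k3, k4, -, k6, k7, k8, k9, k10⟩ := hST m hm1 hm2
    refine ⟨S m, T m, k2, k3, k4, k7, k8, k9, by rw [hκ1 _ k2, hκ2 m hm1], by rw [hκ1 _ k3, hκ2 m hm1, k6], ?_⟩
    intro u hu hus hut
    obtain ⟨r1, r2⟩ := k10 u hu hus hut
    refine ⟨r1, r2, ?_⟩
    rw [hκ2 m hm1]
    rcases Nat.lt_or_ge u n with h | h
    · rw [hκ1 u h]
      exact ((hadj u (S m) h k2).1 r1).2
    · rw [hκ2 u h]
      have hun : u < n' := h3 u m hu.symm
      obtain ⟨q1, q2, q3, q4, -, q6, q7, q8, q9, q10⟩ := hST u h hun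
      obtain ⟨w1, w2⟩ := q10 m hu.symm (by omega) (by omega)
      -- the ends of `u` are adjacent to `m`
      have hne : s(S m, T m) ≠ s(S u, T u) := by
        intro h
        have := he2 m u hm1 hm2 (by omega) hun (by rw [k1, q1, h])
        rw [this] at hu
        exact hu.ne rfl
      by_cases e1 : S u = S m ∨ S u = T m
      · have e2 : T u ≠ S m ∧ T u ≠ T m := by
          constructor
          · intro e3
            rcases e1 with e1 | e1
            · exact q4 (e1.trans e3.symm)
            · exact hne (by rw [e1, e3, Sym2.eq_swap])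
          · intro e3
            rcases e1 with e1 | e1
            · exact hne (by rw [e1, e3])
            · exact q4 (e1.trans e3.symm)
        have := (k10 (T u) w2 e2.1 e2.2).1
        rw [q6]
        exact ((hadj (T u) (S m) q3 k2).1 this).2
      · rw [not_or] at e1
        have := (k10 (S u) w1 e1.1 e1.2).1
        exact ((hadj (S u) (S m) q2 k2).1 this).2

end Pool.Agent.N504.RS
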