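import Pool.Agent.R782.Bal.Hom

/-!
# Homology spheres over the field with two elements
-/

set_option autoImplicit false

namespace Pool.Agent.N504.RS.Two

open Pool.Agent.W907.SG
open Pool.Agent.W907.SM (lk)
open Pool.Agent.R782.Bal (tr2)

/-- The flag complex of `G` is a homology manifold over the field with two elements with the homology of the
`(n-1)`-sphere: for every simplex `S` (the empty simplex included) the flag complex of the graph induced on the set
`lk G S` of the common neighbours of `S` (the link of `S`) has the reduced mod `2` homology of the sphere of dimension
`n - 1 - |S|`. `beta G tr2 A ∅ i` is the `(i-1)`-st reduced mod `2` Betti number of the flag complex of the graph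
induced on `A`. -/
def HSph2 (n : ℕ) {V : Type} [Fintype V] [LinearOrder V] (G : SimpleGraph V) : Prop :=
  ∀ S : Finset V, G.IsClique (S : Set V) → ∀ i : ℕ, beta G tr2 (lk G S) ∅ i = if i + S.card = n then 1 else 0

end Pool.Agent.N504.RS.Two
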