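import Pool.Agent.N496.LT.Stm2
import Pool.Agent.R782.Bal.Emb
import Pool.Agent.N504.RS.TwoDef
import Pool.Agent.R703.CW.Link
import Pool.Agent.R703.MO.Small
import Pool.Agent.R781.VS.VDel

/-!
# An edge subdivision of a (flag) homology sphere over the field with two elements is a homology sphere

The proof is the one of `Pool/Agent/N496/LT/E1.lean` (helper415) for real coefficients.
-/

set_option autoImplicit false

noncomputable section

namespace Pool.Agent.N504.RS.Two

open Module Pool.Agent.W907.SG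
open Pool.Agent.W907.SM (lk)
open Pool.Agent.N496.LT (sd)
open Pool.Agent.R782.Bal (tr2 mem_KK_tr beta_tr bd_tr)

section general

variable {V : Type} [Fintype V] [LinearOrder V] {G H : SimpleGraph V} {A : Set V}

/-- the real reduced Betti numbers of the flag complex of `G` on the set `A` -/
def bb (G : SimpleGraph V) (A : Set V) (i : ℕ) : ℕ :=
  beta G tr2 A ∅ i

theorem KK_S (S : Set V) (i : ℕ) : KK G tr2 A S i = KK G tr2 A ∅ i := Pool.Agent.R782.Bal.KK_tr G A S i

theorem beta_SS (S : Set V) (i : ℕ) : beta G tr2 A S i =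
    bb G A i := by
  unfold bb beta ZZ BB
  rw [KK_S (i := i) S, KK_S (i := i + 1) S]

/-- only the induced graph matters -/
theorem bb_congr (h : ∀ u ∈ A, ∀ v ∈ A, G.Adj u v ↔ H.Adj u v) (i : ℕ) : bb G A i = bb H A i := by
  have key : ∀ i, KK G tr2 A ∅ i =
      KK H tr2 A ∅ i := by
    intro i
    have hcl : ∀ T : Finset V, (G.IsClique (T : Set V) ∧ (T : Set V) ⊆ A ∧ T.card = i) ↔
        (H.IsClique (T : Set V) ∧ (T : Set V) ⊆ A ∧ T.card = i) := by
      intro T
      constructor
      · rintro ⟨h1, h2, h3⟩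
        exact ⟨fun x hx y hy hxy => (h x (h2 hx) y (h2 hy)).1 (h1 hx hy hxy), h2, h3⟩
      · rintro ⟨h1, h2, h3⟩
        exact ⟨fun x hx y hy hxy => (h x (h2 hx) y (h2 hy)).2 (h1 hx hy hxy), h2, h3⟩
    ext c
    rw [mem_KK, mem_KK]
    refine and_congr_left fun _ => forall_congr' fun T => ?_
    rw [hcl T]
  unfold bb beta ZZ BB
  rw [key i, key (i + 1)]

theorem bb_cone {u : V} (hu : u ∈ A) (h : ∀ w ∈ A, w ≠ u → G.Adj u w) (i : ℕ) : bb G A i = 0 :=
  Pool.Agent.R703.MO.beta_cone hu h (fun m => (ZMod.neg_eq_self_mod_two m).symm) i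

theorem bb_vert0 {v : V} (hv : v ∉ A) : bb G (insert v A) 0 ≤ bb G A 0 :=
  (vert V (ZMod 2) (ZMod 2) G _ A ∅ v hv (Set.notMem_empty v)).1

theorem bb_vert {v : V} (hv : v ∉ A) (i : ℕ) :
    bb G (insert v A) (i + 1) ≤ bb G A (i + 1) + bb G (A ∩ G.neighborSet v) i := by
  have h := (vert V (ZMod 2) (ZMod 2) G tr2 A ∅ v hv (Set.notMem_empty v)).2 i
  rw [beta_SS (insert v ∅)] at h
  exact h

theorem bb_vdel {v : V} (hv : v ∉ A) (i : ℕ) :
    bb G A i ≤ bb G (insert v A) i + bb G (A ∩ G.neighborSet v) i := by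
  have h := Pool.Agent.R781.VS.vdel G tr2 A ∅ v hv i
  rw [beta_SS (insert v ∅)] at h
  exact h

/-- adding a vertex with an acyclic link -/
theorem bb_add {v : V} (hv : v ∉ A) (h : ∀ i, bb G (A ∩ G.neighborSet v) i = 0) (i : ℕ) :
    bb G (insert v A) i = bb G A i := by
  refine le_antisymm ?_ ?_
  · cases i with
    | zero => exact bb_vert0 hv
    | succ i =>
      have := bb_vert (G := G) hv i
      rwa [h i, add_zero] at this
  · have := bb_vdel (G := G) hv i
    rwa [h i, add_zero] at this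

/-- adding a dominated vertex -/
theorem bb_dom {v u : V} (hv : v ∉ A) (hu : u ∈ A) (huv : G.Adj v u)
    (h : ∀ w ∈ A, G.Adj v w → w ≠ u → G.Adj u w) (i : ℕ) : bb G (insert v A) i = bb G A i :=
  bb_add hv (fun i => bb_cone (show u ∈ A ∩ G.neighborSet v from ⟨hu, huv⟩)
    (fun w hw hwu => h w hw.1 hw.2 hwu) i) i

open Pool.Agent.W347.SGV in
/-- the lift as a linear map -/
def liftL (v : V) : (Finset V → (ZMod 2)) →ₗ[(ZMod 2)] (Finset V → (ZMod 2)) where
  toFun := lift v
  map_add' c d := by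
    funext T
    show (if v ∈ T then sg v (T.erase v) • (c + d) (T.erase v) else 0) =
      (if v ∈ T then sg v (T.erase v) • c (T.erase v) else 0) +
        (if v ∈ T then sg v (T.erase v) • d (T.erase v) else 0)
    split_ifs
    · rw [Pi.add_apply, smul_add]
    · rw [add_zero]
  map_smul' a c := by
    funext T
    show (if v ∈ T then sg v (T.erase v) • (a • c) (T.erase v) else 0) =
      a • (if v ∈ T then sg v (T.erase v) • c (T.erase v) else 0)
    split_ifs
    · rw [Pi.smul_apply]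
      exact smul_comm _ _ _
    · rw [smul_zero]

open Pool.Agent.W347.SGV in
/-- the third inequality in the exact sequence of a vertex -/
theorem bb_lnk {v : V} (hv : v ∉ A) (i : ℕ) :
    bb G (A ∩ G.neighborSet v) i ≤ bb G (insert v A) (i + 1) + bb G A i := by
  set ρ : V → (ZMod 2) →ₗ[(ZMod 2)] (ZMod 2) := tr2 with hρ
  have hlk : bb G (A ∩ G.neighborSet v) i = beta G ρ (A ∩ G.neighborSet v) (insert v ∅) i :=
    (beta_SS _ _).symm
  rw [hlk]
  have hq0 : ∀ j, ∀ c ∈ KK G ρ A ∅ j, qq (ZMod 2) v c = 0 := by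
    intro j c hc
    funext T
    by_cases hvT : v ∈ T
    · exact qq_of_mem _ hvT
    · rw [qq_of_not _ hvT, (mem_KK.1 hc).1 (insert v T), smul_zero]
      · rfl
      · rintro ⟨-, h, -⟩
        exact hv (h (by simp))
  refine mid (ZMod 2) (Finset V → (ZMod 2)) (Finset V → (ZMod 2)) (Finset V → (ZMod 2)) (qq (ZMod 2) v) ((bd (ZMod 2)).comp (liftL v))
    (BB G ρ (insert v A) ∅ (i + 1)) (ZZ G ρ (insert v A) ∅ (i + 1))
    (BB G ρ (A ∩ G.neighborSet v) (insert v ∅) i) (ZZ G ρ (A ∩ G.neighborSet v) (insert v ∅) i)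
    (BB G ρ A ∅ i) (ZZ G ρ A ∅ i) (BB_le_ZZ _ _ _ _ _) (BB_le_ZZ _ _ _ _ _) (BB_le_ZZ _ _ _ _ _)
    ?_ ?_ ?_
  · rintro _ ⟨_, ⟨c, hc, rfl⟩, rfl⟩
    refine ⟨- qq (ZMod 2) v c, Submodule.neg_mem _ (qq_mem hc), ?_⟩
    rw [map_neg, qq_bd, neg_neg]
  · rintro _ ⟨y, ⟨hy1, hy2⟩, rfl⟩
    have hy2 : bd (ZMod 2) y = 0 := hy2
    show bd (ZMod 2) (lift v y) ∈ ZZ G ρ A ∅ i
    refine ⟨mem_of_qq (bd_mem_KK (lift_mem hy1)) ?_, bd_bd _⟩
    have h1 := qq_bd (F := (ZMod 2)) v (lift v y)
    rw [qq_lift hv hy1, hy2] at h1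
    exact neg_eq_zero.1 h1.symm
  · rintro z ⟨hz1, hz2⟩ ⟨w, hw, hwz⟩
    have hwz : bd (ZMod 2) w = bd (ZMod 2) (lift v z) := hwz
    refine ⟨lift v z - w, ⟨Submodule.sub_mem _ (lift_mem hz1)
      (KK_mono (Set.subset_insert _ _) hw), ?_⟩, 0, Submodule.zero_mem _, ?_⟩
    · show bd (ZMod 2) (lift v z - w) = 0
      rw [map_sub, hwz, sub_self]
    · rw [map_sub, qq_lift hv hz1, hq0 _ w hw, sub_zero, add_zero]

/-- suspensions -/
theorem bb_susp {s t : V} (hs : s ∈ A) (ht : t ∈ A) (hst : s ≠ t) (hn : ¬ G.Adj s t)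
    (h : ∀ w ∈ A, w ≠ s → w ≠ t → G.Adj s w ∧ G.Adj t w) :
    bb G A 0 = 0 ∧ ∀ i, bb G A (i + 1) = bb G (A \ {s, t}) i := by
  have h1 : A = insert t (A \ {t}) := by
    rw [Set.insert_sdiff_singleton, Set.insert_eq_of_mem ht]
  have h2 : t ∉ A \ {t} := fun h => h.2 rfl
  have h3 : ∀ i, bb G (A \ {t}) i = 0 := bb_cone (u := s) ⟨hs, hst⟩ fun w hw hws =>
    (h w hw.1 hws hw.2).1
  have h4 : (A \ {t}) ∩ G.neighborSet t = A \ {s, t} := by
    ext w
    constructor
    · rintro ⟨⟨h5, h6⟩, h7⟩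
      refine ⟨h5, ?_⟩
      rintro (h8 | h8)
      · rw [h8] at h7
        exact hn (SimpleGraph.Adj.symm h7)
      · exact h6 h8
    · rintro ⟨h5, h6⟩
      have h7 : w ≠ s := fun e => h6 (Or.inl e)
      have h8 : w ≠ t := fun e => h6 (Or.inr e)
      exact ⟨⟨h5, h8⟩, (h w h5 h7 h8).2⟩
  constructor
  · have h5 := bb_vert0 (G := G) h2
    rw [← h1, h3 0] at h5
    omega
  · intro i
    have h5 := bb_vert (G := G) h2 i
    have h6 := bb_lnk (G := G) h2 i
    rw [← h1, h3, h4] at h5 h6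
    omega

open Pool.Agent.W310.SG in
/-- deleting an edge with an acyclic link -/
theorem del_univ {s t : V} (hst : G.Adj s t)
    (h : ∀ i, bb G (G.neighborSet s ∩ G.neighborSet t) i = 0) (i : ℕ) :
    bb (G.deleteEdges {s(s, t)}) Set.univ i = bb G Set.univ i := by
  refine le_antisymm ?_ ?_
  · have h1 := edge V (ZMod 2) (ZMod 2) G tr2 s t hst
    cases i with
    | zero => exact h1.1
    | succ i =>
      have h2 := h1.2 i
      rw [beta_SS {s, t}, h i, add_zero] at h2
      exact h2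
  · set ρ : V → (ZMod 2) →ₗ[(ZMod 2)] (ZMod 2) := tr2 with hρ
    rcases Nat.lt_or_ge i 2 with hi | hi
    · have e1 : ZZ G ρ Set.univ ∅ i = ZZ (G.deleteEdges {s(s, t)}) ρ Set.univ ∅ i := by
        unfold ZZ
        rw [KK_eq_small (by omega : i ≤ 1)]
      have e2 : finrank (ZMod 2) (BB (G.deleteEdges {s(s, t)}) ρ Set.univ ∅ i) ≤
          finrank (ZMod 2) (BB G ρ Set.univ ∅ i) :=
        Submodule.finrank_mono (Submodule.map_mono (KK_le _))
      show finrank (ZMod 2) (ZZ G ρ Set.univ ∅ i) - finrank (ZMod 2) (BB G ρ Set.univ ∅ i) ≤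
        finrank (ZMod 2) (ZZ (G.deleteEdges {s(s, t)}) ρ Set.univ ∅ i) -
          finrank (ZMod 2) (BB (G.deleteEdges {s(s, t)}) ρ Set.univ ∅ i)
      rw [e1]
      omega
    · obtain ⟨j, rfl⟩ : ∃ j, i = j + 2 := ⟨i - 2, by omega⟩
      have h3 : bb G (G.neighborSet s ∩ G.neighborSet t) j =
          beta G ρ (G.neighborSet s ∩ G.neighborSet t) {s, t} j := (beta_SS _ _).symm
      have key : bb G Set.univ (j + 2) ≤ bb (G.deleteEdges {s(s, t)}) Set.univ (j + 2) +
          beta G ρ (G.neighborSet s ∩ G.neighborSet t) {s, t} j := by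
        refine mid (ZMod 2) (Finset V → (ZMod 2)) (Finset V → (ZMod 2)) (Finset V → (ZMod 2)) LinearMap.id (qq (ZMod 2) s t)
          (BB (G.deleteEdges {s(s, t)}) ρ Set.univ ∅ (j + 2))
          (ZZ (G.deleteEdges {s(s, t)}) ρ Set.univ ∅ (j + 2))
          (BB G ρ Set.univ ∅ (j + 2)) (ZZ G ρ Set.univ ∅ (j + 2))
          (BB G ρ (G.neighborSet s ∩ G.neighborSet t) {s, t} j)
          (ZZ G ρ (G.neighborSet s ∩ G.neighborSet t) {s, t} j)
          (BB_le_ZZ _ _ _ _ _) (BB_le_ZZ _ _ _ _ _) (BB_le_ZZ _ _ _ _ _) ?_ ?_ ?_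
        · rw [Submodule.map_id]
          exact Submodule.map_mono (KK_le _)
        · rintro _ ⟨y, ⟨hy1, hy2⟩, rfl⟩
          have hy2 : bd (ZMod 2) y = 0 := hy2
          refine ⟨q_mem hst hy1, ?_⟩
          show bd (ZMod 2) (qq (ZMod 2) s t y) = 0
          rw [← q_bd hst.ne, hy2, map_zero]
        · rintro z ⟨hz1, hz2⟩ ⟨y, hy, hyz⟩
          have hz2 : bd (ZMod 2) z = 0 := hz2
          have hl := lft_mem hst hy
          refine ⟨z - bd (ZMod 2) (lft s t y), ⟨mem_of_q_zero (Submodule.sub_mem _ hz1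
            (bd_mem_KK hl)) ?_, ?_⟩, bd (ZMod 2) (lft s t y), ⟨_, hl, rfl⟩, ?_⟩
          · rw [map_sub, q_bd hst.ne, q_lft hst hy, hyz, sub_self]
          · show bd (ZMod 2) (z - bd (ZMod 2) (lft s t y)) = 0
            rw [map_sub, hz2, bd_bd, sub_zero]
          · simp
      rw [← h3, h j, add_zero] at key
      exact key

/-- facets -/
theorem exists_facet2 {n : ℕ} (hS : HSph2 n G) (T : Finset V) (hT : G.IsClique (T : Set V)) :
    ∃ S : Finset V, T ⊆ S ∧ G.IsClique (S : Set V) ∧ S.card = n := by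
  classical
  obtain ⟨S, hS0, hmax⟩ := Set.Finite.exists_maximalFor Finset.card
    {S : Finset V | T ⊆ S ∧ G.IsClique (S : Set V)} (Set.toFinite _) ⟨T, Finset.Subset.refl T, hT⟩
  obtain ⟨hTS, hSc⟩ := hS0
  refine ⟨S, hTS, hSc, ?_⟩
  have hlk : lk G S = ∅ := by
    rw [Set.eq_empty_iff_forall_notMem]
    intro v hv
    have hvS : v ∉ S := fun h => (hv v h).ne rfl
    have h1 : G.IsClique ((insert v S : Finset V) : Set V) := by
      rw [Finset.coe_insert]
      exact hSc.insert fun u hu _ => hv u hu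
    have h2 := hmax ⟨hTS.trans (Finset.subset_insert v S), h1⟩ (by
      rw [Finset.card_insert_of_notMem hvS]; omega)
    rw [Finset.card_insert_of_notMem hvS] at h2
    omega
  by_contra hcon
  have h1 := hS S hSc 0
  rw [if_neg (by omega), hlk, Pool.Agent.R782.Bal.beta_empty, if_pos rfl] at h1
  exact one_ne_zero h1

/-- the size of the cliques -/
theorem card_le2 {n : ℕ} (hS : HSph2 n G) (T : Finset V) (hT : G.IsClique (T : Set V)) :
    T.card ≤ n := by
  obtain ⟨S, h1, -, h2⟩ := exists_facet2 hS T hT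
  exact h2 ▸ Finset.card_le_card h1

end general

/-- transport -/
theorem bb_tr {U V : Type} [Fintype U] [LinearOrder U] [Fintype V] [LinearOrder V]
    {G : SimpleGraph V} {H : SimpleGraph U} (φ : U → V) (hφ : StrictMono φ) (A : Set U)
    (h : ∀ u ∈ A, ∀ u' ∈ A, H.Adj u u' ↔ G.Adj (φ u) (φ u')) (i : ℕ) :
    bb G (φ '' A) i = bb H A i := by
  classical
  have hfin : Fintype A := Fintype.ofFinite _
  have e1 := tr A V (ZMod 2) (ZMod 2) G (H.induce A) tr2 (fun x => φ x.1)
    (fun _ _ hab => hφ hab) (fun u u' => h u.1 u.2 u'.1 u'.2) i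
  have e2 := tr A U (ZMod 2) (ZMod 2) H (H.induce A) tr2 (fun x => x.1)
    (fun _ _ hab => hab) (fun u u' => Iff.rfl) i
  have r1 : Set.range (fun x : A => φ x.1) = φ '' A := by
    ext v
    constructor
    · rintro ⟨x, rfl⟩
      exact ⟨x.1, x.2, rfl⟩
    · rintro ⟨x, hx, rfl⟩
      exact ⟨⟨x, hx⟩, rfl⟩
  rw [r1] at e1
  rw [Subtype.range_coe] at e2
  unfold bb
  rw [e1, e2]

/-- deleting an edge with an acyclic link, on a subset -/
theorem bb_del {V : Type} [Fintype V] [LinearOrder V] {G : SimpleGraph V} {A : Set V} {s t : V}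
    (hs : s ∈ A) (ht : t ∈ A) (hst : G.Adj s t)
    (h : ∀ i, bb G (A ∩ (G.neighborSet s ∩ G.neighborSet t)) i = 0) (i : ℕ) :
    bb (G.deleteEdges {s(s, t)}) A i = bb G A i := by
  classical
  have hfin : Fintype A := Fintype.ofFinite _
  have e1 := bb_tr (G := G) (H := G.induce A) (Subtype.val : A → V) (fun _ _ hab => hab) Set.univ
    (fun u _ u' _ => Iff.rfl) i
  have e2 := bb_tr (G := G.deleteEdges {s(s, t)})
    (H := (G.induce A).deleteEdges {s((⟨s, hs⟩ : A), (⟨t, ht⟩ : A))}) (Subtype.val : A → V)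
    (fun _ _ hab => hab) Set.univ (fun u _ u' _ => by
      rw [SimpleGraph.deleteEdges_adj, SimpleGraph.deleteEdges_adj, Set.mem_singleton_iff,
        Set.mem_singleton_iff, Sym2.eq_iff, Sym2.eq_iff]
      simp only [Subtype.ext_iff]
      rfl) i
  rw [Set.image_univ, Subtype.range_coe] at e1 e2
  rw [e1, e2]
  refine del_univ (G := G.induce A) (s := ⟨s, hs⟩) (t := ⟨t, ht⟩) hst (fun j => ?_) i
  have e3 := bb_tr (G := G) (H := G.induce A) (Subtype.val : A → V) (fun _ _ hab => hab)
    ((G.induce A).neighborSet ⟨s, hs⟩ ∩ (G.induce A).neighborSet ⟨t, ht⟩)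
    (fun u _ u' _ => Iff.rfl) j
  rw [← e3]
  have r3 : (Subtype.val : A → V) '' ((G.induce A).neighborSet ⟨s, hs⟩ ∩
      (G.induce A).neighborSet ⟨t, ht⟩) = A ∩ (G.neighborSet s ∩ G.neighborSet t) := by
    ext v
    constructor
    · rintro ⟨x, hx, rfl⟩
      exact ⟨x.2, hx⟩
    · rintro ⟨h1, h2⟩
      exact ⟨⟨v, h1⟩, h2, rfl⟩
  rw [r3]
  exact h j


section main

variable {n k : ℕ} {G : SimpleGraph (Fin n)} {s t : Fin n}

/-- the neighbours of the new vertex -/
def Mid (G : SimpleGraph (Fin n)) (s t b : Fin n) : Prop := b = s ∨ b = t ∨ (G.Adj s b ∧ G.Adj t b)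

theorem sd_cc (a b : Fin n) :
    (sd G s t).Adj a.castSucc b.castSucc ↔ G.Adj a b ∧ s(a, b) ≠ s(s, t) := by
  constructor
  · rintro (⟨a', b', h1, h2, h3, h4⟩ | ⟨h, -⟩ | ⟨h, -⟩)
    · rw [Fin.castSucc_injective _ h1, Fin.castSucc_injective _ h2]
      exact ⟨h3, h4⟩
    · exact absurd h (Fin.castSucc_lt_last a).ne
    · exact absurd h (Fin.castSucc_lt_last b).ne
  · rintro ⟨h1, h2⟩
    exact Or.inl ⟨a, b, rfl, rfl, h1, h2⟩

theorem sd_lc (b : Fin n) : (sd G s t).Adj (Fin.last n) b.castSucc ↔ Mid G s t b := by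
  constructor
  · rintro (⟨a', b', h1, -⟩ | ⟨-, b', h1, h2⟩ | ⟨h, -⟩)
    · exact absurd h1.symm (Fin.castSucc_lt_last a').ne
    · rw [Fin.castSucc_injective _ h1]
      exact h2
    · exact absurd h (Fin.castSucc_lt_last b).ne
  · intro h
    exact Or.inr (Or.inl ⟨rfl, b, rfl, h⟩)

theorem sd_cl (b : Fin n) : (sd G s t).Adj b.castSucc (Fin.last n) ↔ Mid G s t b := by
  rw [SimpleGraph.adj_comm, sd_lc]

theorem sd_ns : ¬ (sd G s t).Adj s.castSucc t.castSucc := by
  rw [sd_cc]
  exact fun h => h.2 rfl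

theorem mid_comm (b : Fin n) : Mid G s t b ↔ Mid G t s b := by
  unfold Mid
  tauto

theorem sd_comm : sd G s t = sd G t s := by
  ext x y
  induction x using Fin.lastCases with
  | last =>
    induction y using Fin.lastCases with
    | last => simp
    | cast b => rw [sd_lc, sd_lc, mid_comm]
  | cast a =>
    induction y using Fin.lastCases with
    | last => rw [sd_cl, sd_cl, mid_comm]
    | cast b => rw [sd_cc, sd_cc, Sym2.eq_swap (a := t)]

/-- the graph with the edge `s t` -/
def g2 (G : SimpleGraph (Fin n)) (s t : Fin n) : SimpleGraph (Fin (n + 1)) :=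
  sd G s t ⊔ SimpleGraph.edge s.castSucc t.castSucc

theorem g2_cc (hst : G.Adj s t) (a b : Fin n) : (g2 G s t).Adj a.castSucc b.castSucc ↔ G.Adj a b := by
  unfold g2
  rw [SimpleGraph.sup_adj, sd_cc, SimpleGraph.edge_adj]
  constructor
  · rintro (h | ⟨⟨h1, h2⟩ | ⟨h1, h2⟩, -⟩)
    · exact h.1
    · rw [Fin.castSucc_injective _ h1, Fin.castSucc_injective _ h2]
      exact hst
    · rw [Fin.castSucc_injective _ h1, Fin.castSucc_injective _ h2]
      exact hst.symm
  · intro h
    by_cases h1 : s(a, b) = s(s, t)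
    · right
      refine ⟨?_, fun h2 => h.ne (Fin.castSucc_injective _ h2)⟩
      rw [Sym2.eq_iff] at h1
      rcases h1 with ⟨h1, h2⟩ | ⟨h1, h2⟩
      · left
        rw [h1, h2]
        exact ⟨rfl, rfl⟩
      · right
        rw [h1, h2]
        exact ⟨rfl, rfl⟩
    · exact Or.inl ⟨h, h1⟩

theorem g2_lc (b : Fin n) : (g2 G s t).Adj (Fin.last n) b.castSucc ↔ Mid G s t b := by
  unfold g2
  rw [SimpleGraph.sup_adj, sd_lc, SimpleGraph.edge_adj]
  constructor
  · rintro (h | ⟨⟨h1, h2⟩ | ⟨h1, h2⟩, -⟩)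
    · exact h
    · exact absurd h1 (Fin.castSucc_lt_last s).ne'
    · exact absurd h1 (Fin.castSucc_lt_last t).ne'
  · exact Or.inl

theorem g2_cl (b : Fin n) : (g2 G s t).Adj b.castSucc (Fin.last n) ↔ Mid G s t b := by
  rw [SimpleGraph.adj_comm, g2_lc]

theorem g2_del : (g2 G s t).deleteEdges {s(s.castSucc, t.castSucc)} = sd G s t := by
  ext x y
  rw [SimpleGraph.deleteEdges_adj, Set.mem_singleton_iff]
  unfold g2
  rw [SimpleGraph.sup_adj, SimpleGraph.edge_adj]
  constructor
  · rintro ⟨h | ⟨⟨h1, h2⟩ | ⟨h1, h2⟩, -⟩, h3⟩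
    · exact h
    · exact absurd (by rw [h1, h2]) h3
    · exact absurd (by rw [h1, h2, Sym2.eq_swap]) h3
  · intro h
    refine ⟨Or.inl h, fun h1 => ?_⟩
    rw [Sym2.eq_iff] at h1
    rcases h1 with ⟨h1, h2⟩ | ⟨h1, h2⟩
    · rw [h1, h2] at h
      exact sd_ns h
    · rw [h1, h2] at h
      exact sd_ns h.symm

/-- the preimage -/
def pre (S : Finset (Fin (n + 1))) : Finset (Fin n) := Finset.univ.filter fun a => a.castSucc ∈ S

theorem mem_pre {S : Finset (Fin (n + 1))} {a : Fin n} : a ∈ pre S ↔ a.castSucc ∈ S := by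
  unfold pre
  rw [Finset.mem_filter]
  exact ⟨fun h => h.2, fun h => ⟨Finset.mem_univ _, h⟩⟩

theorem map_pre (S : Finset (Fin (n + 1))) : (pre S).map Fin.castSuccEmb = S.erase (Fin.last n) := by
  ext v
  rw [Finset.mem_map, Finset.mem_erase]
  constructor
  · rintro ⟨a, ha, rfl⟩
    exact ⟨(Fin.castSucc_lt_last a).ne, mem_pre.1 ha⟩
  · rintro ⟨h1, h2⟩
    obtain ⟨a, rfl⟩ := Fin.exists_castSucc_eq.2 h1
    exact ⟨a, mem_pre.2 h2, rfl⟩

theorem card_in {S : Finset (Fin (n + 1))} (h : Fin.last n ∈ S) : S.card = (pre S).card + 1 := by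
  have h1 := Finset.card_map (s := pre S) Fin.castSuccEmb
  rw [map_pre] at h1
  rw [← h1, Finset.card_erase_add_one h]

theorem card_out {S : Finset (Fin (n + 1))} (h : Fin.last n ∉ S) : S.card = (pre S).card := by
  have h1 := Finset.card_map (s := pre S) Fin.castSuccEmb
  rw [map_pre, Finset.erase_eq_of_notMem h] at h1
  exact h1

theorem lk_c {S : Finset (Fin (n + 1))} (a : Fin n) : a.castSucc ∈ lk (sd G s t) S ↔
    (∀ u ∈ pre S, G.Adj a u ∧ s(a, u) ≠ s(s, t)) ∧ (Fin.last n ∈ S → Mid G s t a) := by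
  constructor
  · intro h
    exact ⟨fun u hu => (sd_cc a u).1 (h _ (mem_pre.1 hu)), fun hl => (sd_cl a).1 (h _ hl)⟩
  · rintro ⟨h1, h2⟩ v hv
    induction v using Fin.lastCases with
    | last => exact (sd_cl a).2 (h2 hv)
    | cast u => exact (sd_cc a u).2 (h1 u (mem_pre.2 hv))

theorem lk_l {S : Finset (Fin (n + 1))} : Fin.last n ∈ lk (sd G s t) S ↔
    Fin.last n ∉ S ∧ ∀ u ∈ pre S, Mid G s t u := by
  constructor
  · intro h
    exact ⟨fun hl => (sd G s t).loopless.irrefl _ (h _ hl),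
      fun u hu => (sd_lc u).1 (h _ (mem_pre.1 hu))⟩
  · rintro ⟨h1, h2⟩ v hv
    induction v using Fin.lastCases with
    | last => exact absurd hv h1
    | cast u => exact (sd_lc u).2 (h2 u (mem_pre.2 hv))

theorem last_img (A : Set (Fin n)) : Fin.last n ∉ Fin.castSucc '' A := by
  rintro ⟨a, -, h⟩
  exact (Fin.castSucc_lt_last a).ne h

theorem mem_img {A : Set (Fin n)} {a : Fin n} : a.castSucc ∈ Fin.castSucc '' A ↔ a ∈ A :=
  (Fin.castSucc_injective n).mem_set_image

theorem mono_cs : StrictMono (Fin.castSucc : Fin n → Fin (n + 1)) := Fin.strictMono_castSucc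

section cases

variable {S : Finset (Fin (n + 1))} (hst : G.Adj s t) (hG : HSph2 k G)
  (hS : (sd G s t).IsClique (S : Set (Fin (n + 1))))

include hS in
theorem pre_clique : G.IsClique ((pre S : Finset (Fin n)) : Set (Fin n)) := by
  intro a ha b hb hab
  exact ((sd_cc a b).1 (hS (mem_pre.1 ha) (mem_pre.1 hb)
    fun h => hab (Fin.castSucc_injective _ h))).1

include hst hS in
theorem not_both : ¬ (s ∈ pre S ∧ t ∈ pre S) := by
  rintro ⟨h1, h2⟩
  exact sd_ns (hS (mem_pre.1 h1) (mem_pre.1 h2) fun h => hst.ne (Fin.castSucc_injective _ h))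

include hS in
theorem mid_of_in (hz : Fin.last n ∈ S) : ∀ u ∈ pre S, Mid G s t u := fun u hu =>
  (sd_lc u).1 (hS hz (mem_pre.1 hu) (Fin.castSucc_lt_last u).ne')

include hst hG hS in
theorem caseA1 (hz : Fin.last n ∈ S) (hs : s ∈ pre S) (i : ℕ) :
    bb (sd G s t) (lk (sd G s t) S) i = if i + S.card = k then 1 else 0 := by
  classical
  have hc := pre_clique hS
  have hnb := not_both hst hS
  have hM := mid_of_in hS hz
  have ht : t ∉ pre S := fun h => hnb ⟨hs, h⟩
  have hTc : G.IsClique ((insert t (pre S) : Finset (Fin n)) : Set (Fin n)) := by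
    rw [Finset.coe_insert, SimpleGraph.isClique_insert]
    refine ⟨hc, fun b hb htb => ?_⟩
    rcases hM b hb with h | h | h
    · rw [h]
      exact hst.symm
    · exact absurd h.symm htb
    · exact h.2
  have hcard : (insert t (pre S)).card = S.card := by
    rw [Finset.card_insert_of_notMem ht, card_in hz]
  have hlk : lk (sd G s t) S = Fin.castSucc '' lk G (insert t (pre S)) := by
    ext v
    induction v using Fin.lastCases with
    | last =>
      rw [lk_l]
      exact ⟨fun h => absurd hz h.1, fun h => absurd h (last_img _)⟩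
    | cast a =>
      rw [lk_c, mem_img]
      constructor
      · rintro ⟨h1, h2⟩ u hu
        rcases Finset.mem_insert.1 hu with rfl | hu
        · rcases h2 hz with h | h | h
          · exact absurd (h1 s hs).1 (by rw [h]; exact G.loopless.irrefl _)
          · exact absurd (by rw [h, Sym2.eq_swap]) (h1 s hs).2
          · exact h.2.symm
        · exact (h1 u hu).1
      · intro h
        have h1 : G.Adj a t := h t (Finset.mem_insert_self _ _)
        have h2 : G.Adj a s := h s (Finset.mem_insert_of_mem hs)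
        refine ⟨fun u hu => ⟨h u (Finset.mem_insert_of_mem hu), fun h3 => ?_⟩, fun _ =>
          Or.inr (Or.inr ⟨h2.symm, h1.symm⟩)⟩
        rw [Sym2.eq_iff] at h3
        rcases h3 with ⟨h3, -⟩ | ⟨h3, -⟩
        · exact h2.ne h3
        · exact h1.ne h3
  rw [hlk, bb_tr (H := G) Fin.castSucc mono_cs, ← hcard]
  · exact hG _ hTc i
  · intro u hu u' hu'
    rw [sd_cc]
    have h1 : G.Adj u t := hu t (Finset.mem_insert_self _ _)
    have h2 : G.Adj u s := hu s (Finset.mem_insert_of_mem hs)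
    refine ⟨fun h => ⟨h, fun h3 => ?_⟩, fun h => h.1⟩
    rw [Sym2.eq_iff] at h3
    rcases h3 with ⟨h3, -⟩ | ⟨h3, -⟩
    · exact h2.ne h3
    · exact h1.ne h3

include hst hG hS in
theorem caseA3 (hz : Fin.last n ∈ S) (hs : s ∉ pre S) (ht : t ∉ pre S) (i : ℕ) :
    bb (sd G s t) (lk (sd G s t) S) i = if i + S.card = k then 1 else 0 := by
  classical
  have hc := pre_clique hS
  have hM := mid_of_in hS hz
  have hM' : ∀ u ∈ pre S, G.Adj s u ∧ G.Adj t u := by
    intro u hu
    rcases hM u hu with h | h | h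
    · exact absurd (h ▸ hu) hs
    · exact absurd (h ▸ hu) ht
    · exact h
  have hs' : s ∉ insert t (pre S) := by
    rw [Finset.mem_insert, not_or]
    exact ⟨hst.ne, hs⟩
  have hTc : G.IsClique ((insert s (insert t (pre S)) : Finset (Fin n)) : Set (Fin n)) := by
    rw [Finset.coe_insert, SimpleGraph.isClique_insert, Finset.coe_insert,
      SimpleGraph.isClique_insert]
    refine ⟨⟨hc, fun b hb _ => (hM' b hb).2⟩, fun b hb _ => ?_⟩
    rcases hb with rfl | hb
    · exact hst
    · exact (hM' b hb).1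
  have hcard : (insert s (insert t (pre S))).card = S.card + 1 := by
    rw [Finset.card_insert_of_notMem hs', Finset.card_insert_of_notMem ht, card_in hz]
  have hle := card_le2 hG _ hTc
  set T := insert s (insert t (pre S)) with hT
  have hTs : ∀ a ∈ lk G T, G.Adj a s := fun a ha => ha s (Finset.mem_insert_self _ _)
  have hTt : ∀ a ∈ lk G T, G.Adj a t := fun a ha =>
    ha t (Finset.mem_insert_of_mem (Finset.mem_insert_self _ _))
  have hlk : ∀ a : Fin n, a.castSucc ∈ lk (sd G s t) S ↔ a = s ∨ a = t ∨ a ∈ lk G T := by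
    intro a
    rw [lk_c]
    constructor
    · rintro ⟨h1, h2⟩
      rcases h2 hz with h | h | h
      · exact Or.inl h
      · exact Or.inr (Or.inl h)
      · refine Or.inr (Or.inr fun u hu => ?_)
        rw [hT, Finset.mem_insert, Finset.mem_insert] at hu
        rcases hu with rfl | rfl | hu
        · exact h.1.symm
        · exact h.2.symm
        · exact (h1 u hu).1
    · have hne : ∀ u ∈ pre S, s(a, u) ≠ s(s, t) := by
        intro u hu h3
        rw [Sym2.eq_iff] at h3
        rcases h3 with ⟨-, h3⟩ | ⟨-, h3⟩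
        · exact ht (h3 ▸ hu)
        · exact hs (h3 ▸ hu)
      rintro (h | h | h)
      · refine ⟨fun u hu => ⟨?_, hne u hu⟩, fun _ => Or.inl h⟩
        rw [h]
        exact (hM' u hu).1
      · refine ⟨fun u hu => ⟨?_, hne u hu⟩, fun _ => Or.inr (Or.inl h)⟩
        rw [h]
        exact (hM' u hu).2
      · refine ⟨fun u hu => ⟨?_, hne u hu⟩, fun _ =>
          Or.inr (Or.inr ⟨(hTs a h).symm, (hTt a h).symm⟩)⟩
        exact h u (Finset.mem_insert_of_mem (Finset.mem_insert_of_mem hu))
  have hlast : Fin.last n ∉ lk (sd G s t) S := fun h => (lk_l.1 h).1 hz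
  have hsusp := bb_susp (G := sd G s t) (A := lk (sd G s t) S) (s := s.castSucc)
    (t := t.castSucc) ((hlk s).2 (Or.inl rfl)) ((hlk t).2 (Or.inr (Or.inl rfl)))
    (fun h => hst.ne (Fin.castSucc_injective _ h)) sd_ns (by
      intro w hw hws hwt
      induction w using Fin.lastCases with
      | last => exact absurd hw hlast
      | cast a =>
        rcases (hlk a).1 hw with h | h | h
        · exact absurd (by rw [h]) hws
        · exact absurd (by rw [h]) hwt
        · have e1 : a ≠ s := fun e => hws (by rw [e])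
          have e2 : a ≠ t := fun e => hwt (by rw [e])
          rw [sd_cc, sd_cc]
          refine ⟨⟨(hTs a h).symm, fun h3 => ?_⟩, ⟨(hTt a h).symm, fun h3 => ?_⟩⟩
          · rw [Sym2.eq_iff] at h3
            rcases h3 with ⟨-, h3⟩ | ⟨-, h3⟩
            · exact e2 h3
            · exact e1 h3
          · rw [Sym2.eq_iff] at h3
            rcases h3 with ⟨-, h3⟩ | ⟨-, h3⟩
            · exact e2 h3
            · exact e1 h3)
  have hset : lk (sd G s t) S \ {s.castSucc, t.castSucc} = Fin.castSucc '' lk G T := by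
    ext w
    induction w using Fin.lastCases with
    | last => exact ⟨fun h => absurd h.1 hlast, fun h => absurd h (last_img _)⟩
    | cast a =>
      rw [mem_img]
      constructor
      · rintro ⟨h1, h2⟩
        rcases (hlk a).1 h1 with h | h | h
        · exact absurd (Or.inl (by rw [h])) h2
        · exact absurd (Or.inr (by rw [h]; rfl)) h2
        · exact h
      · intro h
        refine ⟨(hlk a).2 (Or.inr (Or.inr h)), ?_⟩
        rintro (h1 | h1)
        · exact (hTs a h).ne (Fin.castSucc_injective _ h1)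
        · exact (hTt a h).ne (Fin.castSucc_injective _ h1)
  cases i with
  | zero =>
    rw [hsusp.1, if_neg (by omega)]
  | succ i =>
    rw [hsusp.2 i, hset, bb_tr (H := G) Fin.castSucc mono_cs]
    · have h1 := hG T hTc i
      have h2 : bb G (lk G T) i = if i + T.card = k then 1 else 0 := h1
      rw [h2, hcard]
      congr 1
      rw [eq_iff_iff]
      omega
    · intro u hu u' hu'
      rw [sd_cc]
      refine ⟨fun h => ⟨h, fun h3 => ?_⟩, fun h => h.1⟩
      rw [Sym2.eq_iff] at h3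
      rcases h3 with ⟨h3, -⟩ | ⟨h3, -⟩
      · exact (hTs u hu).ne h3
      · exact (hTt u hu).ne h3

include hG hS in
theorem caseB2 (hz : Fin.last n ∉ S) (hM : ¬ ∀ u ∈ pre S, Mid G s t u) (i : ℕ) :
    bb (sd G s t) (lk (sd G s t) S) i = if i + S.card = k then 1 else 0 := by
  classical
  have hc := pre_clique hS
  have hlk : lk (sd G s t) S = Fin.castSucc '' lk G (pre S) := by
    ext v
    induction v using Fin.lastCases with
    | last =>
      rw [lk_l]
      exact ⟨fun h => absurd h.2 hM, fun h => absurd h (last_img _)⟩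
    | cast a =>
      rw [lk_c, mem_img]
      constructor
      · rintro ⟨h1, -⟩ u hu
        exact (h1 u hu).1
      · intro h
        refine ⟨fun u hu => ⟨h u hu, fun h3 => ?_⟩, fun h => absurd h hz⟩
        rw [Sym2.eq_iff] at h3
        apply hM
        rcases h3 with ⟨h3, h4⟩ | ⟨h3, h4⟩
        · intro u' hu'
          by_cases h5 : u' = t
          · exact Or.inr (Or.inl h5)
          · refine Or.inr (Or.inr ⟨?_, ?_⟩)
            · rw [← h3]
              exact h u' hu'
            · rw [← h4]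
              exact hc hu hu' (by rw [h4]; exact fun e => h5 e.symm)
        · intro u' hu'
          by_cases h5 : u' = s
          · exact Or.inl h5
          · refine Or.inr (Or.inr ⟨?_, ?_⟩)
            · rw [← h4]
              exact hc hu hu' (by rw [h4]; exact fun e => h5 e.symm)
            · rw [← h3]
              exact h u' hu'
  rw [hlk, bb_tr (H := G) Fin.castSucc mono_cs, card_out hz]
  · exact hG _ hc i
  · intro u hu u' hu'
    rw [sd_cc]
    refine ⟨fun h => ⟨h, fun h3 => ?_⟩, fun h => h.1⟩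
    rw [Sym2.eq_iff] at h3
    apply hM
    intro v hv
    refine Or.inr (Or.inr ?_)
    rcases h3 with ⟨h3, h4⟩ | ⟨h3, h4⟩
    · rw [← h3, ← h4]
      exact ⟨hu v hv, hu' v hv⟩
    · rw [← h3, ← h4]
      exact ⟨hu' v hv, hu v hv⟩

include hst hG hS in
theorem caseB1a (hz : Fin.last n ∉ S) (hM : ∀ u ∈ pre S, Mid G s t u) (hs : s ∈ pre S) (i : ℕ) :
    bb (sd G s t) (lk (sd G s t) S) i = if i + S.card = k then 1 else 0 := by
  classical
  have hc := pre_clique hS
  have hnb := not_both hst hS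
  have ht : t ∉ pre S := fun h => hnb ⟨hs, h⟩
  have htl : t ∈ lk G (pre S) := by
    intro u hu
    rcases hM u hu with h | h | h
    · rw [h]
      exact hst.symm
    · exact absurd (h ▸ hu) ht
    · exact h.2
  have hlk : lk (sd G s t) S = insert (Fin.last n) (Fin.castSucc '' (lk G (pre S) \ {t})) := by
    ext v
    induction v using Fin.lastCases with
    | last =>
      rw [lk_l]
      exact ⟨fun _ => Or.inl rfl, fun _ => ⟨hz, hM⟩⟩
    | cast a =>
      rw [lk_c]
      constructor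
      · rintro ⟨h1, -⟩
        right
        rw [mem_img]
        refine ⟨fun u hu => (h1 u hu).1, fun h => ?_⟩
        have h' : a = t := h
        exact (h1 s hs).2 (by rw [h', Sym2.eq_swap])
      · rintro (h | h)
        · exact absurd h (Fin.castSucc_lt_last a).ne
        · rw [mem_img] at h
          obtain ⟨h1, h2⟩ := h
          refine ⟨fun u hu => ⟨h1 u hu, fun h3 => ?_⟩, fun h => absurd h hz⟩
          rw [Sym2.eq_iff] at h3
          rcases h3 with ⟨h3, -⟩ | ⟨h3, -⟩
          · exact (h1 s hs).ne h3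
          · exact h2 h3
  have hsl : s ∉ lk G (pre S) := fun h => G.loopless.irrefl _ (h s hs)
  have e1 : bb (sd G s t) (insert (Fin.last n) (Fin.castSucc '' (lk G (pre S) \ {t}))) i =
      bb (g2 G s t) (insert (Fin.last n) (Fin.castSucc '' (lk G (pre S) \ {t}))) i := by
    refine bb_congr (fun u hu v hv => ?_) i
    rw [← g2_del, SimpleGraph.deleteEdges_adj, Set.mem_singleton_iff]
    refine ⟨fun h => h.1, fun h => ⟨h, fun h3 => ?_⟩⟩
    have key : t.castSucc ∉ insert (Fin.last n) (Fin.castSucc '' (lk G (pre S) \ {t})) := by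
      rintro (h | h)
      · exact (Fin.castSucc_lt_last t).ne h
      · rw [mem_img] at h
        exact h.2 rfl
    rw [Sym2.eq_iff] at h3
    rcases h3 with ⟨-, h3⟩ | ⟨h3, -⟩
    · exact key (h3 ▸ hv)
    · exact key (h3 ▸ hu)
  have e2 : bb (g2 G s t) (insert t.castSucc
      (insert (Fin.last n) (Fin.castSucc '' (lk G (pre S) \ {t})))) i =
      bb (g2 G s t) (insert (Fin.last n) (Fin.castSucc '' (lk G (pre S) \ {t}))) i := by
    refine bb_dom (u := Fin.last n) ?_ (Or.inl rfl) ((g2_cl t).2 (Or.inr (Or.inl rfl))) ?_ i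
    · rintro (h | h)
      · exact (Fin.castSucc_lt_last t).ne h
      · rw [mem_img] at h
        exact h.2 rfl
    · rintro w (hw | ⟨a, ha, rfl⟩) h1 h2
      · exact absurd hw h2
      · rw [g2_cc hst] at h1
        rw [g2_lc]
        exact Or.inr (Or.inr ⟨(ha.1 s hs).symm, h1⟩)
  have e3 : insert t.castSucc (insert (Fin.last n) (Fin.castSucc '' (lk G (pre S) \ {t}))) =
      insert (Fin.last n) (Fin.castSucc '' lk G (pre S)) := by
    rw [Set.insert_comm, ← Set.image_insert_eq, Set.insert_sdiff_singleton,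
      Set.insert_eq_of_mem htl]
  have e4 : bb (g2 G s t) (insert (Fin.last n) (Fin.castSucc '' lk G (pre S))) i =
      bb (g2 G s t) (Fin.castSucc '' lk G (pre S)) i := by
    refine bb_dom (u := t.castSucc) (last_img _) (mem_img.2 htl)
      ((g2_lc t).2 (Or.inr (Or.inl rfl))) ?_ i
    rintro w ⟨a, ha, rfl⟩ h1 h2
    rw [g2_lc] at h1
    rw [g2_cc hst]
    rcases h1 with h | h | h
    · exact absurd (h ▸ ha) hsl
    · exact absurd (by rw [h]) h2
    · exact h.2
  rw [hlk, e1, ← e2, e3, e4, bb_tr (H := G) Fin.castSucc mono_cs, card_out hz]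
  · exact hG _ hc i
  · intro u _ u' _
    exact (g2_cc hst u u').symm

include hst hG hS in
theorem caseB1c (hz : Fin.last n ∉ S) (hM : ∀ u ∈ pre S, Mid G s t u) (hs : s ∉ pre S)
    (ht : t ∉ pre S) (i : ℕ) :
    bb (sd G s t) (lk (sd G s t) S) i = if i + S.card = k then 1 else 0 := by
  classical
  have hc := pre_clique hS
  have hM' : ∀ u ∈ pre S, G.Adj s u ∧ G.Adj t u := by
    intro u hu
    rcases hM u hu with h | h | h
    · exact absurd (h ▸ hu) hs
    · exact absurd (h ▸ hu) ht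
    · exact h
  have hsl : s ∈ lk G (pre S) := fun u hu => (hM' u hu).1
  have htl : t ∈ lk G (pre S) := fun u hu => (hM' u hu).2
  have hlk : lk (sd G s t) S = insert (Fin.last n) (Fin.castSucc '' lk G (pre S)) := by
    ext v
    induction v using Fin.lastCases with
    | last =>
      rw [lk_l]
      exact ⟨fun _ => Or.inl rfl, fun _ => ⟨hz, hM⟩⟩
    | cast a =>
      rw [lk_c]
      constructor
      · rintro ⟨h1, -⟩
        right
        rw [mem_img]
        exact fun u hu => (h1 u hu).1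
      · rintro (h | h)
        · exact absurd h (Fin.castSucc_lt_last a).ne
        · rw [mem_img] at h
          refine ⟨fun u hu => ⟨h u hu, fun h3 => ?_⟩, fun h => absurd h hz⟩
          rw [Sym2.eq_iff] at h3
          rcases h3 with ⟨-, h3⟩ | ⟨-, h3⟩
          · exact ht (h3 ▸ hu)
          · exact hs (h3 ▸ hu)
  have e1 : bb (sd G s t) (insert (Fin.last n) (Fin.castSucc '' lk G (pre S))) i =
      bb (g2 G s t) (insert (Fin.last n) (Fin.castSucc '' lk G (pre S))) i := by
    rw [← g2_del]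
    refine bb_del (G := g2 G s t) (A := insert (Fin.last n) (Fin.castSucc '' lk G (pre S)))
      (s := s.castSucc) (t := t.castSucc) (Or.inr (mem_img.2 hsl)) (Or.inr (mem_img.2 htl))
      ((g2_cc hst s t).2 hst) (bb_cone (u := Fin.last n) ⟨Or.inl rfl, (g2_cl s).2 (Or.inl rfl),
        (g2_cl t).2 (Or.inr (Or.inl rfl))⟩ ?_) i
    rintro w ⟨hw | ⟨a, ha, rfl⟩, h1, h2⟩ h3
    · exact absurd hw h3
    · have h1' : (g2 G s t).Adj s.castSucc a.castSucc := h1
      have h2' : (g2 G s t).Adj t.castSucc a.castSucc := h2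
      rw [g2_cc hst] at h1' h2'
      rw [g2_lc]
      exact Or.inr (Or.inr ⟨h1', h2'⟩)
  have e2 : bb (g2 G s t) (insert (Fin.last n) (Fin.castSucc '' lk G (pre S))) i =
      bb (g2 G s t) (Fin.castSucc '' lk G (pre S)) i := by
    refine bb_dom (u := s.castSucc) (last_img _) (mem_img.2 hsl)
      ((g2_lc s).2 (Or.inl rfl)) ?_ i
    rintro w ⟨a, ha, rfl⟩ h1 h2
    rw [g2_lc] at h1
    rw [g2_cc hst]
    rcases h1 with h | h | h
    · exact absurd (by rw [h]) h2
    · rw [h]
      exact hst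
    · exact h.1
  rw [hlk, e1, e2, bb_tr (H := G) Fin.castSucc mono_cs, card_out hz]
  · exact hG _ hc i
  · intro u _ u' _
    exact (g2_cc hst u u').symm

end cases

end main


theorem e1_two {k n : ℕ} {G : SimpleGraph (Fin n)} {s t : Fin n} (hst : G.Adj s t) (hG : HSph2 k G) :
    HSph2 k (sd G s t) := by
  intro S hS i
  have hG' := hG
  have hS' : (sd G t s).IsClique (S : Set (Fin (n + 1))) := by
    rw [sd_comm]
    exact hS
  show bb (sd G s t) (Pool.Agent.W907.SM.lk (sd G s t) S) i = _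
  by_cases hz : Fin.last n ∈ S
  · by_cases hs : s ∈ pre S
    · exact caseA1 hst hG hS hz hs i
    · by_cases ht : t ∈ pre S
      · rw [sd_comm]
        exact caseA1 hst.symm hG hS' hz ht i
      · exact caseA3 hst hG hS hz hs ht i
  · by_cases hM : ∀ u ∈ pre S, Mid G s t u
    · by_cases hs : s ∈ pre S
      · exact caseB1a hst hG hS hz hM hs i
      · by_cases ht : t ∈ pre S
        · rw [sd_comm]
          exact caseB1a hst.symm hG hS' hz (fun u hu => (mid_comm u).1 (hM u hu)) ht i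
        · exact caseB1c hst hG hS hz hM hs ht i
    · exact caseB2 hG hS hz hM i

end Pool.Agent.N504.RS.Two
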