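import Pool.Agent.R782.Bal.Emb
import Pool.Agent.Y131.KS.Cone
import Pool.Agent.Y131.KS.Sub

/-!
# The obstruction of links
-/

set_option autoImplicit false
set_option linter.unusedSectionVars false

namespace Pool.Agent.N504.RS

open Finset Pool.Agent.W555.KS Pool.Agent.Y131.KS Pool.Agent.R782.Bal

variable {n : ℕ}

/-- the old part of a face of the cone -/
def lo (σ : Finset (Fin (n + 1))) : Finset (Fin n) := univ.filter (fun i : Fin n => i.castSucc ∈ σ)

theorem lo_mp (σ : Finset (Fin n)) : lo (mp σ) = σ := by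
  ext v
  rw [lo, mem_filter, castSucc_mem_mp]
  simp

theorem lo_ins (σ : Finset (Fin n)) : lo (insert (Fin.last n) (mp σ)) = σ := by
  ext v
  rw [lo, mem_filter, mem_insert, castSucc_mem_mp]
  simp [(Fin.castSucc_lt_last v).ne]

theorem eq_mp {σ : Finset (Fin (n + 1))} (h : Fin.last n ∉ σ) : σ = mp (lo σ) := by
  ext v
  refine Fin.lastCases ?_ (fun v => ?_) v
  · simp only [h, last_notMem_mp]
  · rw [castSucc_mem_mp, lo, mem_filter]
    simp

theorem eq_ins {σ : Finset (Fin (n + 1))} (h : Fin.last n ∈ σ) : σ = insert (Fin.last n) (mp (lo σ)) := by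
  ext v
  refine Fin.lastCases ?_ (fun v => ?_) v
  · simp only [h, mem_insert, true_or]
  · rw [mem_insert, castSucc_mem_mp, lo, mem_filter]
    simp [(Fin.castSucc_lt_last v).ne]

/-- the obstruction of `L` vanishes in degree `D` if the one of the cone vanishes in degree `D + 1` -/
theorem uncone {D : ℕ} {L : Finset (Finset (Fin n))} (h : VK2 (coneCx L) (D + 1)) : VK2 L D := by
  classical
  intro Z h1 h2 h3
  obtain ⟨Z', hZ'⟩ : ∃ Z' : Finset (Fin (n + 1)) → Finset (Fin (n + 1)) → ZMod 2, Z' = fun σ τ =>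
    if ¬ (Fin.last n ∈ σ ↔ Fin.last n ∈ τ) then Z (lo σ) (lo τ) else 0 := ⟨_, rfl⟩
  have e1 : ∀ σ τ, Z' (insert (Fin.last n) (mp σ)) (mp τ) = Z σ τ := by
    intro σ τ
    rw [hZ']
    dsimp only
    rw [if_pos, lo_ins, lo_mp]
    simp only [mem_insert_self, true_iff]
    exact last_notMem_mp τ
  have e2 : ∀ σ τ, Z' (mp σ) (insert (Fin.last n) (mp τ)) = Z σ τ := by
    intro σ τ
    rw [hZ']
    dsimp only
    rw [if_pos, lo_ins, lo_mp]
    simp only [mem_insert_self, iff_true]
    exact last_notMem_mp σ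
  have e3 : ∀ σ τ, Z' (mp σ) (mp τ) = 0 := by
    intro σ τ
    rw [hZ']
    dsimp only
    rw [if_neg]
    push Not
    exact iff_of_false (last_notMem_mp σ) (last_notMem_mp τ)
  have hs : ∀ σ τ, Z' σ τ = Z' τ σ := by
    intro σ τ
    rw [hZ']
    dsimp only
    by_cases hc : (Fin.last n ∈ σ ↔ Fin.last n ∈ τ)
    · rw [if_neg (not_not.2 hc), if_neg (not_not.2 hc.symm)]
    · rw [if_pos hc, if_pos (fun hc' => hc hc'.symm), h1]
  have main : ∀ ρ τ : Finset (Fin n), Disjoint ρ τ → ρ.card + τ.card + 1 = D →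
      ∑ v ∈ (insert (Fin.last n) (mp ρ) ∪ mp τ)ᶜ, (Z' (insert v (insert (Fin.last n) (mp ρ))) (mp τ) +
        Z' (insert (Fin.last n) (mp ρ)) (insert v (mp τ))) = 0 := by
    intro ρ τ hd hc
    rw [sum_compl2, ← h3 ρ τ hd hc]
    refine sum_congr rfl fun v _ => ?_
    rw [insert_comm, ← mp_insert, ← mp_insert, e1, e1]
  have hz := h Z' hs ?_ ?_
  · rw [sum_powersetCard_succ] at hz
    rw [← hz]
    have e4 : ∑ U ∈ powersetCard (D + 1) (univ : Finset (Fin n)),
        Z' (evenPart (mp U)) (oddPart (mp U)) = 0 := by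
      refine sum_eq_zero fun U _ => ?_
      rw [evenPart_mp, oddPart_mp, e3]
    rw [e4, zero_add]
    refine sum_congr rfl fun W _ => ?_
    rw [evenPart_last, oddPart_last]
    split_ifs with h5
    · rw [e1]
    · rw [e2]
  · intro σ τ hne
    rw [hZ'] at hne
    dsimp only at hne
    have hc : ¬ (Fin.last n ∈ σ ↔ Fin.last n ∈ τ) := fun hc => hne (if_neg (not_not.2 hc))
    rw [if_pos hc] at hne
    obtain ⟨h5, h6⟩ := h2 _ _ hne
    rw [coneCx, mem_filter, mem_filter]
    exact ⟨⟨mem_univ _, h5⟩, ⟨mem_univ _, h6⟩⟩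
  · intro ρ τ hd hc
    by_cases h5 : Fin.last n ∈ ρ
    · have h6 : Fin.last n ∉ τ := fun h6 => (disjoint_left.1 hd) h5 h6
      obtain ⟨ρ0, rfl⟩ : ∃ ρ0, ρ = insert (Fin.last n) (mp ρ0) := ⟨_, eq_ins h5⟩
      obtain ⟨τ0, rfl⟩ : ∃ τ0, τ = mp τ0 := ⟨_, eq_mp h6⟩
      refine main ρ0 τ0 ?_ ?_
      · rw [disjoint_insert_left] at hd
        exact (disjoint_map _).1 hd.2
      · rw [card_insert_of_notMem (last_notMem_mp _), card_map, card_map] at hc
        omega
    · by_cases h6 : Fin.last n ∈ τ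
      · obtain ⟨ρ0, rfl⟩ : ∃ ρ0, ρ = mp ρ0 := ⟨_, eq_mp h5⟩
        obtain ⟨τ0, rfl⟩ : ∃ τ0, τ = insert (Fin.last n) (mp τ0) := ⟨_, eq_ins h6⟩
        have h7 := main τ0 ρ0 (by
          rw [disjoint_insert_right] at hd
          exact ((disjoint_map _).1 hd.2).symm) (by
          rw [card_insert_of_notMem (last_notMem_mp _), card_map, card_map] at hc
          omega)
        rw [← h7, union_comm (mp ρ0)]
        refine sum_congr rfl fun v _ => ?_
        rw [hs (insert v (mp ρ0)), hs (mp ρ0), add_comm]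
      · obtain ⟨ρ0, rfl⟩ : ∃ ρ0, ρ = mp ρ0 := ⟨_, eq_mp h5⟩
        obtain ⟨τ0, rfl⟩ : ∃ τ0, τ = mp τ0 := ⟨_, eq_mp h6⟩
        rw [sum_compl1, e1, e2]
        rw [sum_eq_zero, add_zero]
        · exact Pool.Agent.Helper133.BU.z2_add_self _
        · intro v _
          rw [← mp_insert, ← mp_insert, e3, e3, add_zero]

/-- an ordering of the vertices of `G` which is compatible with a given one on a subset -/
theorem ext_equiv {V : Type} [Finite V] {k : ℕ} (f : Fin k ↪ V) :
    ∃ (N : ℕ) (e : V ≃ Fin N) (g : Fin k ↪ Fin N), StrictMono g ∧ ∀ i, e (f i) = g i := by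
  classical
  have : Fintype V := Fintype.ofFinite V
  -- sort by the position of the preimage
  set key : V → ℕ := fun v => if h : ∃ i, f i = v then (h.choose : ℕ) else k with hkey
  have hk : ∀ i, key (f i) = i := by
    intro i
    have h : ∃ j, f j = f i := ⟨i, rfl⟩
    rw [hkey]
    dsimp only
    rw [dif_pos h]
    exact congrArg Fin.val (f.injective h.choose_spec)
  set e0 := Fintype.equivFin V with he0
  set σ := Tuple.sort (fun i => key (e0.symm i)) with hσ
  have hm : Monotone ((fun i => key (e0.symm i)) ∘ σ) := Tuple.monotone_sort _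
  refine ⟨Fintype.card V, e0.trans σ.symm, f.trans (e0.trans σ.symm).toEmbedding, ?_, fun i => rfl⟩
  intro i j hij
  by_contra hcon
  rw [not_lt] at hcon
  have h1 := hm hcon
  simp only [Function.comp_apply] at h1
  have h2 : ∀ i, e0.symm (σ ((f.trans (e0.trans σ.symm).toEmbedding) i)) = f i := by
    intro i
    show e0.symm (σ (σ.symm (e0 (f i)))) = f i
    rw [Equiv.apply_symm_apply, Equiv.symm_apply_apply]
  rw [h2, h2, hk, hk] at h1
  exact absurd hij (not_lt.2 (by exact_mod_cast h1))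

/-- the obstruction of a subcomplex -/
theorem obs_mono {U V : Type} [Finite V] {D : ℕ} {G : SimpleGraph V} {H : SimpleGraph U} (h : Obs G D)
    (φ : U ↪ V) (hφ : ∀ a b, H.Adj a b → G.Adj (φ a) (φ b)) : Obs H D := by
  classical
  intro n e
  obtain ⟨N, e', g, hg, hge⟩ := ext_equiv (e.symm.toEmbedding.trans φ)
  refine vk_of_vk2 (vk2_mono (f := g) hg ?_ (h N e' (ZMod 2)))
  intro σ hσ
  rw [mem_clF] at hσ ⊢
  intro a ha b hb hab
  rw [mem_coe, mem_map] at ha hb
  obtain ⟨a1, ha1, rfl⟩ := ha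
  obtain ⟨b1, hb1, rfl⟩ := hb
  rw [mem_map] at ha1 hb1
  obtain ⟨a2, ha2, rfl⟩ := ha1
  obtain ⟨b2, hb2, rfl⟩ := hb1
  have e1 : ∀ i, e'.symm.toEmbedding (g i) = φ (e.symm i) := by
    intro i
    show e'.symm (g i) = _
    rw [← hge, Equiv.symm_apply_apply]
    rfl
  rw [e1, e1]
  refine hφ _ _ (hσ ?_ ?_ ?_)
  · rw [mem_coe, mem_map]; exact ⟨a2, ha2, rfl⟩
  · rw [mem_coe, mem_map]; exact ⟨b2, hb2, rfl⟩
  · intro h5
    apply hab
    rw [e1, e1, h5]

/-- the obstruction of a complex the cone over which is a subcomplex -/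
theorem obs_link {U V : Type} [Finite V] {D : ℕ} {G : SimpleGraph V} {H : SimpleGraph U} (h : Obs G (D + 1))
    (φ : U ↪ V) (v : V) (hφ : ∀ a b, H.Adj a b → G.Adj (φ a) (φ b)) (hv : ∀ a, G.Adj v (φ a)) : Obs H D := by
  classical
  intro n e
  have hne : ∀ a, φ a ≠ v := fun a h5 => by
    have := hv a
    rw [h5] at this
    exact this.ne rfl
  obtain ⟨f, hf1, hf2⟩ : ∃ f : Fin (n + 1) ↪ V, (∀ i : Fin n, f i.castSucc = φ (e.symm i)) ∧ f (Fin.last n) = v := by
    refine ⟨⟨Fin.snoc (α := fun _ => V) (fun i => φ (e.symm i)) v, ?_⟩, fun i => ?_, ?_⟩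
    · intro a b
      refine Fin.lastCases ?_ (fun a => ?_) a
      · refine Fin.lastCases ?_ (fun b => ?_) b
        · intro _; rfl
        · intro h5
          rw [Fin.snoc_last, Fin.snoc_castSucc] at h5
          exact absurd h5.symm (hne _)
      · refine Fin.lastCases ?_ (fun b => ?_) b
        · intro h5
          rw [Fin.snoc_last, Fin.snoc_castSucc] at h5
          exact absurd h5 (hne _)
        · intro h5
          rw [Fin.snoc_castSucc, Fin.snoc_castSucc] at h5
          rw [e.symm.injective (φ.injective h5)]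
    · show Fin.snoc (α := fun _ => V) (fun i => φ (e.symm i)) v i.castSucc = _
      rw [Fin.snoc_castSucc]
    · show Fin.snoc (α := fun _ => V) (fun i => φ (e.symm i)) v (Fin.last n) = _
      rw [Fin.snoc_last]
  obtain ⟨N, e', g, hg, hge⟩ := ext_equiv f
  refine vk_of_vk2 (uncone (vk2_mono (f := g) hg ?_ (h N e' (ZMod 2))))
  intro σ hσ
  rw [coneCx, mem_filter] at hσ
  have hσ2 := hσ.2
  rw [mem_clF] at hσ2 ⊢
  intro a ha b hb hab
  rw [mem_coe, mem_map] at ha hb
  obtain ⟨a1, ha1, rfl⟩ := ha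
  obtain ⟨b1, hb1, rfl⟩ := hb
  rw [mem_map] at ha1 hb1
  obtain ⟨a2, ha2, rfl⟩ := ha1
  obtain ⟨b2, hb2, rfl⟩ := hb1
  have e1 : ∀ i, e'.symm.toEmbedding (g i) = f i := by
    intro i
    show e'.symm (g i) = _
    rw [← hge, Equiv.symm_apply_apply]
  rw [e1, e1] at hab ⊢
  have hmem : ∀ i : Fin n, i.castSucc ∈ σ → e.symm i ∈ ((filter (fun i : Fin n => i.castSucc ∈ σ) univ).map
      e.symm.toEmbedding : Finset U) := by
    intro i hi
    rw [mem_map]
    exact ⟨i, by simpa using hi, rfl⟩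
  revert ha2 hb2 hab
  refine Fin.lastCases ?_ (fun a => ?_) a2
  · refine Fin.lastCases ?_ (fun b => ?_) b2
    · intro _ _ h5
      exact absurd rfl h5
    · intro _ _ _
      rw [hf2, hf1]
      exact hv _
  · refine Fin.lastCases ?_ (fun b => ?_) b2
    · intro _ _ _
      rw [hf2, hf1]
      exact (hv _).symm
    · intro ha3 hb3 hab2
      rw [hf1, hf1] at hab2 ⊢
      refine hφ _ _ (hσ2 (hmem a ha3) (hmem b hb3) fun h5 => hab2 (by rw [h5]))

/-- in degree `0` the obstruction does not vanish -/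
theorem obs_pos {V : Type} [Finite V] {D : ℕ} {G : SimpleGraph V} (h : Obs G D) : D ≠ 0 := by
  classical
  rintro rfl
  obtain ⟨n, ⟨e⟩⟩ := Finite.exists_equiv_fin V
  have h1 := h n e (ZMod 2) (fun σ τ => if σ = ∅ ∧ τ = ∅ then 1 else 0) ?_ ?_ ?_
  · rw [powersetCard_zero, sum_singleton] at h1
    simp [evenPart, oddPart] at h1
  · intro σ τ
    simp only [and_comm]
  · intro σ τ hne
    split_ifs at hne with hc
    · rw [hc.1, hc.2]
      exact ⟨(clF_cx G e).1, (clF_cx G e).1⟩
    · exact absurd rfl hne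
  · intro ρ τ _ h5
    omega

/-- the number of vertices of a simplex -/
theorem obs_clique {D : ℕ} : ∀ {V : Type} [Finite V] {G : SimpleGraph V}, Obs G D →
    ∀ Q : Finset V, G.IsClique (Q : Set V) → Q.card < D := by
  classical
  induction D with
  | zero => intro V _ G h; exact absurd rfl (obs_pos h)
  | succ D ih =>
    intro V _ G h Q hQ
    rcases Q.eq_empty_or_nonempty with h0 | ⟨v, hv⟩
    · rw [h0, card_empty]; omega
    · have h1 : Obs (G.induce ((Q.erase v : Finset V) : Set V)) D := by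
        refine obs_link h (Function.Embedding.subtype _) v (fun a b hab => hab) fun a => ?_
        have h2 := a.2
        rw [mem_coe, mem_erase] at h2
        exact hQ hv h2.2 h2.1.symm
      have h3 := ih h1 univ (by
        intro a _ b _ hab
        have ha := a.2
        have hb := b.2
        rw [mem_coe, mem_erase] at ha hb
        exact hQ ha.2 hb.2 fun h5 => hab (Subtype.ext h5))
      have h4 : (univ : Finset ↥((Q.erase v : Finset V) : Set V)).card = (Q.erase v).card := by
        rw [card_univ]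
        exact Fintype.card_coe _
      rw [h4, card_erase_of_mem hv] at h3
      have := card_pos.2 ⟨v, hv⟩
      omega

end Pool.Agent.N504.RS
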